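import Mathlib

set_option autoImplicit false

/-!
# Systems of linear forms in all short windows, in sieved random models of the primes (project HT)

Statements of the packages.
-/

open Finset MeasureTheory ProbabilityTheory Filter Topology

namespace Pool.Agent.U485.SM

/-- the primes up to `t` -/
def Pr (t : ℕ) : Finset ℕ := (Finset.Icc 1 t).filter Nat.Prime

/-- `W t = ∏_{p ≤ t} (1 - 1/p)⁻¹` -/
noncomputable def W (t : ℕ) : ℝ := ∏ p ∈ Pr t, (1 - 1 / (p : ℝ))⁻¹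

open Classical in
/-- `W (T m)` if `m` has no prime factor `p ≤ T m`, and `0` otherwise -/
noncomputable def fT (T : ℕ → ℕ) (m : ℕ) : ℝ :=
  if ∀ p, p.Prime → p ≤ T m → ¬ p ∣ m then W (T m) else 0

/-- the value of a form `(a, c)` at `n`: `a n + c` -/
def val (f : ℤ × ℤ) (n : ℤ) : ℤ := f.1 * n + f.2

open Classical in
/-- the classes modulo `p` that are forbidden if the values of the form `f` must be free of primes `≤ t f` -/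
noncomputable def Om (F : Finset (ℤ × ℤ)) (t : ℤ × ℤ → ℕ) (p : ℕ) : Finset ℕ :=
  (range p).filter (fun r => ∃ f ∈ F, p ≤ t f ∧ (p : ℤ) ∣ val f r)

/-- the truncated singular series -/
noncomputable def Sg (F : Finset (ℤ × ℤ)) (t : ℤ × ℤ → ℕ) : ℝ :=
  (∏ p ∈ Pr (F.sup t), (1 - ((Om F t p).card : ℝ) / p)) * ∏ f ∈ F, W (t f)

open Classical in
/-- FLK. The fundamental lemma, at most `κ` classes for every prime. -/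
def S_FLK : Prop := ∀ κ : ℕ, ∃ K : ℕ, 1 ≤ K ∧ ∀ (b z1 : ℕ) (Om : ℕ → Finset ℕ) (J1 J2 : ℤ), K ≤ b → 2 ≤ z1 →
  (∀ p : ℕ, p.Prime → p ≤ z1 → Om p ⊆ range p ∧ (Om p).card ≤ κ) → J1 ≤ J2 →
  |(((Finset.Ioc J1 J2).filter (fun n : ℤ => ∀ p : ℕ, p.Prime → p ≤ z1 → (n % p).toNat ∉ Om p)).card : ℝ) -
      ((J2 : ℝ) - J1) * ∏ p ∈ Pr z1, (1 - ((Om p).card : ℝ) / p)| ≤
    (1 / 2 : ℝ) ^ b * (((J2 : ℝ) - J1) * ∏ p ∈ Pr z1, (1 - ((Om p).card : ℝ) / p)) + (z1 : ℝ) ^ (K * b)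

open Classical in
/-- CST. Constant sieve levels. -/
def S_CST : Prop := ∀ k b₀ : ℕ, ∃ K : ℝ, ∃ D : ℕ, 0 < K ∧ ∀ (F : Finset (ℤ × ℤ)) (t : ℤ × ℤ → ℕ) (J1 J2 : ℤ),
  F.card ≤ k → (∀ f ∈ F, IsCoprime f.1 f.2) → J1 ≤ J2 →
  |(∏ f ∈ F, W (t f)) * (((Finset.Ioc J1 J2).filter (fun n : ℤ => ∀ f ∈ F, ∀ p : ℕ, p.Prime → p ≤ t f →
      ¬ (p : ℤ) ∣ val f n)).card : ℝ) - ((J2 : ℝ) - J1) * Sg F t| ≤
    (1 / 2 : ℝ) ^ b₀ * (((J2 : ℝ) - J1) * Sg F t) + K * ((F.sup t : ℕ) + 2 : ℝ) ^ D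

/-- PCE. Monotone sieve levels: the window is cut where the levels change. -/
def S_PCE : Prop := ∀ k b₀ : ℕ, ∃ K : ℝ, ∃ D : ℕ, 0 < K ∧ ∀ T : ℕ → ℕ, Monotone T →
  ∀ (F : Finset (ℤ × ℤ)) (J1 J2 : ℤ) (z : ℕ),
  F.card ≤ k → (∀ f ∈ F, IsCoprime f.1 f.2) → J1 ≤ J2 →
  (∀ n ∈ Finset.Ioc J1 J2, ∀ f ∈ F, 0 < val f n ∧ T (val f n).toNat ≤ z) →
  |∑ n ∈ Finset.Ioc J1 J2, ∏ f ∈ F, fT T (val f n).toNat -
      ∑ n ∈ Finset.Ioc J1 J2, Sg F (fun f => T (val f n).toNat)| ≤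
    (1 / 2 : ℝ) ^ b₀ * ∑ n ∈ Finset.Ioc J1 J2, Sg F (fun f => T (val f n).toNat) + K * ((z : ℝ) + 2) ^ D

/-- LOW. Admissible systems: the truncated singular series is bounded below. -/
def S_LOW : Prop := ∀ k : ℕ, ∃ c : ℝ, 0 < c ∧ ∀ (F : Finset (ℤ × ℤ)) (t : ℤ × ℤ → ℕ), F.card ≤ k →
  (∀ f ∈ F, IsCoprime f.1 f.2) → (∀ p : ℕ, p.Prime → ∃ r : ℕ, ∀ f ∈ F, ¬ (p : ℤ) ∣ val f r) → c ≤ Sg F t

/-- the number of solutions modulo `p` -/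
noncomputable def nu (F : Finset (ℤ × ℤ)) (p : ℕ) : ℕ := (Om F (fun _ => p) p).card

/-- LIM. A fixed system: the truncated singular series tends to the singular series. -/
def S_LIM : Prop := ∀ (F : Finset (ℤ × ℤ)), (∀ f ∈ F, IsCoprime f.1 f.2) → (∀ f ∈ F, f.1 ≠ 0) →
  (∀ f ∈ F, ∀ g ∈ F, f ≠ g → f.1 * g.2 ≠ g.1 * f.2) → ∀ c : ℝ,
  Tendsto (fun y : ℕ => ∏ p ∈ Pr y, ((1 - (nu F p : ℝ) / p) * (1 - 1 / (p : ℝ))⁻¹ ^ F.card)) atTop (𝓝 c) →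
  ∀ δ : ℝ, 0 < δ → ∃ t₀ : ℕ, ∀ t : ℤ × ℤ → ℕ, (∀ f ∈ F, t₀ ≤ t f) → |Sg F t - c| ≤ δ

/-- COL. Greedy colouring. -/
def S_COL : Prop := ∀ (V : Finset ℤ) (R : ℤ → ℤ → Prop), (∀ a b, R a b → R b a) → ∀ D : ℕ,
  (∀ n ∈ V, {m : ℤ | m ∈ V ∧ m ≠ n ∧ R n m}.ncard ≤ D) →
  ∃ c : ℤ → ℕ, (∀ n ∈ V, c n ≤ D) ∧ ∀ n ∈ V, ∀ m ∈ V, n ≠ m → c n = c m → ¬ R n m

open Classical in
/-- CHE. Large deviations for the number of the `n` in `V` for which all members of `U n` are chosen. -/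
def S_CHE : Prop := ∀ (Ω : Type) (_ : MeasurableSpace Ω) (μ : Measure Ω) (_ : IsProbabilityMeasure μ) (E : ℕ → Set Ω),
  (∀ n, MeasurableSet (E n)) → iIndepSet E μ → ∀ (V : Finset ℤ) (U : ℤ → Finset ℕ) (D : ℕ),
  (∀ n ∈ V, {m : ℤ | m ∈ V ∧ m ≠ n ∧ ¬ Disjoint (U n) (U m)}.ncard ≤ D) → ∀ ε lam : ℝ, 0 < ε → ε ≤ 1 → 0 ≤ lam →
  μ.real {ω | ε * ∑ n ∈ V, ∏ j ∈ U n, μ.real (E j) + (D + 1) * lam <
      |((V.filter (fun n => ∀ j ∈ U n, ω ∈ E j)).card : ℝ) - ∑ n ∈ V, ∏ j ∈ U n, μ.real (E j)|} ≤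
    2 * (D + 1) * Real.exp (-(ε * lam / 2))

open Classical in
/-- UNI. Almost surely, uniformly for all windows and all systems. -/
def S_UNI : Prop := ∀ (Ω : Type) (_ : MeasurableSpace Ω) (μ : Measure Ω) (_ : IsProbabilityMeasure μ) (E : ℕ → Set Ω),
  (∀ n, MeasurableSet (E n)) → iIndepSet E μ →
  ∀ᵐ ω ∂μ, ∀ k C : ℕ, ∀ ε η : ℝ, 0 < ε → 0 < η → ∀ᶠ x : ℕ in atTop,
    ∀ (F : Finset (ℤ × ℤ)) (J1 J2 : ℤ), F.card ≤ k → (∀ f ∈ F, f.1 ≠ 0 ∧ |f.1| ≤ (x : ℤ) ^ C ∧ |f.2| ≤ (x : ℤ) ^ C) →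
      |J1| ≤ (x : ℤ) ^ C → |J2| ≤ (x : ℤ) ^ C → (∀ n ∈ Finset.Ioc J1 J2, ∀ f ∈ F, 0 < val f n) →
      |(((Finset.Ioc J1 J2).filter (fun n => ∀ f ∈ F, ω ∈ E (val f n).toNat)).card : ℝ) -
          ∑ n ∈ Finset.Ioc J1 J2, ∏ f ∈ F, μ.real (E (val f n).toNat)| ≤
        ε * ∑ n ∈ Finset.Ioc J1 J2, ∏ f ∈ F, μ.real (E (val f n).toNat) + (x : ℝ) ^ η

/-- WBD. The product of Mertens is small. -/
def S_WBD : Prop := ∃ C : ℝ, 0 < C ∧ ∀ t : ℕ, W t ≤ C + C * Real.log t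

end Pool.Agent.U485.SM
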