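import Pool.Agent.U485.SM.Stm2

set_option autoImplicit false

/-!
# Exact patterns: no further element of `Q` between the elements of the pattern
-/

open Finset MeasureTheory ProbabilityTheory Filter Topology

namespace Pool.Agent.U485.SM

/-- the number of the `n` in `(a, b]` such that among `n, n + 1, …, n + max H` exactly the `n + h`, `h ∈ H`, are in `Q` -/
noncomputable def numx (Q : Set ℕ) (H : Finset ℕ) (a b : ℕ) : ℕ :=
  {n : ℕ | a < n ∧ n ≤ b ∧ ∀ j ≤ H.sup id, (n + j ∈ Q ↔ j ∈ H)}.ncard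

/-- every pattern has a singular series -/
theorem ex_lim (hS : S_SIN) (H : Finset ℕ) : ∃ c : ℝ, 0 ≤ c ∧ Tendsto (PP H) atTop (𝓝 c) := by
  by_cases h : ∃ p : ℕ, p.Prime ∧ res H p = p
  · exact ⟨0, le_rfl, hS.2 H h⟩
  · push Not at h
    obtain ⟨c, hc, h1⟩ := hS.1 H (fun p hp => by
      have h2 : res H p ≤ p := by
        unfold res
        calc (H.image (fun h => h % p)).card ≤ (range p).card := by
              apply card_le_card
              intro r hr
              obtain ⟨h, _, rfl⟩ := mem_image.1 hr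
              exact mem_range.2 (Nat.mod_lt _ hp.pos)
          _ = p := card_range p
      exact lt_of_le_of_ne h2 (h p hp))
    exact ⟨c, hc.le, h1⟩

theorem fin_win (P : ℕ → Prop) (a b : ℕ) : {n : ℕ | a < n ∧ n ≤ b ∧ P n}.Finite :=
  (Set.finite_Iic b).subset fun n hn => hn.2.1

/-- the two counts differ by at most the counts of the larger patterns -/
theorem numx_bd (Q : Set ℕ) (H : Finset ℕ) (a b : ℕ) : numx Q H a b ≤ num Q H a b ∧
    num Q H a b ≤ numx Q H a b + ∑ j ∈ (range (H.sup id + 1)) \ H, num Q (insert j H) a b := by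
  classical
  constructor
  · apply Set.ncard_le_ncard _ (fin_win _ a b)
    rintro n ⟨h1, h2, h3⟩
    exact ⟨h1, h2, fun h hh => (h3 h (Finset.le_sup (f := id) hh)).2 hh⟩
  · have h1 : {n : ℕ | a < n ∧ n ≤ b ∧ ∀ h ∈ H, n + h ∈ Q} ⊆
        {n : ℕ | a < n ∧ n ≤ b ∧ ∀ j ≤ H.sup id, (n + j ∈ Q ↔ j ∈ H)} ∪
          ⋃ j ∈ (range (H.sup id + 1)) \ H, {n : ℕ | a < n ∧ n ≤ b ∧ ∀ h ∈ insert j H, n + h ∈ Q} := by
      rintro n ⟨h1, h2, h3⟩
      by_cases h4 : ∀ j ≤ H.sup id, (n + j ∈ Q ↔ j ∈ H)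
      · exact Or.inl ⟨h1, h2, h4⟩
      · push Not at h4
        obtain ⟨j, hj, h5⟩ := h4
        have h6 : n + j ∈ Q ∧ j ∉ H := by
          rcases h5 with h5 | h5
          · exact h5
          · exact absurd (h3 j h5.2) h5.1
        refine Or.inr ?_
        simp only [Set.mem_iUnion]
        refine ⟨j, Finset.mem_sdiff.2 ⟨Finset.mem_range.2 (by omega), h6.2⟩, h1, h2, fun h hh => ?_⟩
        rcases Finset.mem_insert.1 hh with rfl | hh
        · exact h6.1
        · exact h3 h hh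
    have hfin : (⋃ j ∈ (range (H.sup id + 1)) \ H, {n : ℕ | a < n ∧ n ≤ b ∧ ∀ h ∈ insert j H, n + h ∈ Q}).Finite :=
      Set.Finite.biUnion (Finset.finite_toSet _) (fun j _ => fin_win _ a b)
    calc num Q H a b ≤ _ := Set.ncard_le_ncard h1 ((fin_win _ a b).union hfin)
      _ ≤ _ := Set.ncard_union_le _ _
      _ ≤ _ := by
        apply Nat.add_le_add_left
        exact Finset.set_ncard_biUnion_le _ _

/-- **Exact patterns in short windows.** -/
theorem exact (hS : S_SIN) {Q : Set ℕ} (hQ : LawH Q) (H : Finset ℕ) (c : ℝ) (hc : Tendsto (PP H) atTop (𝓝 c))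
    (d η : ℝ) (hd : 0 < d) (hη : 0 < η) : ∀ᶠ x : ℕ in atTop, ∀ h : ℕ, (x : ℝ) ^ η ≤ h → h ≤ x →
    |(numx Q H x (x + h) : ℝ) * (Real.log x) ^ H.card - c * h| ≤ d * h := by
  classical
  choose cc hcc0 hcc using ex_lim hS
  obtain ⟨J, hJ⟩ : ∃ J, J = (range (H.sup id + 1)) \ H := ⟨_, rfl⟩
  have h1 := hQ H c hc (d / 2) η (by positivity) hη
  have h2 : ∀ᶠ x : ℕ in atTop, ∀ j ∈ J, ∀ h : ℕ, (x : ℝ) ^ η ≤ h → h ≤ x →
      |(num Q (insert j H) x (x + h) : ℝ) * (Real.log x) ^ (insert j H).card - cc (insert j H) * h| ≤ 1 * h := by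
    rw [Filter.eventually_all_finset]
    intro j _
    exact hQ (insert j H) _ (hcc _) 1 η one_pos hη
  obtain ⟨B, hB⟩ : ∃ B : ℝ, B = ∑ j ∈ J, (cc (insert j H) + 1) := ⟨_, rfl⟩
  filter_upwards [h1, h2, tlog.eventually_ge_atTop (2 * B / d), tlog.eventually_ge_atTop 1]
    with x g1 g2 g3 g4 h h3 h4
  have hh0 : (0 : ℝ) ≤ h := by positivity
  have hL : 0 < Real.log x := by linarith
  obtain ⟨b1, b2⟩ := numx_bd Q H x (x + h)
  rw [← hJ] at b2
  have c1 : (numx Q H x (x + h) : ℝ) ≤ num Q H x (x + h) := by exact_mod_cast b1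
  have c2 : (num Q H x (x + h) : ℝ) ≤ numx Q H x (x + h) + ∑ j ∈ J, (num Q (insert j H) x (x + h) : ℝ) := by
    exact_mod_cast b2
  have c3 : (∑ j ∈ J, (num Q (insert j H) x (x + h) : ℝ)) * (Real.log x) ^ H.card * Real.log x ≤ B * h := by
    rw [hB, Finset.sum_mul, Finset.sum_mul, Finset.sum_mul]
    apply Finset.sum_le_sum
    intro j hj
    have e1 := (abs_le.1 (g2 j hj h h3 h4)).2
    have e2 : (insert j H).card = H.card + 1 := by
      apply card_insert_of_notMem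
      rw [hJ] at hj
      exact (Finset.mem_sdiff.1 hj).2
    rw [e2, pow_succ] at e1
    linarith
  have c4 : (∑ j ∈ J, (num Q (insert j H) x (x + h) : ℝ)) * (Real.log x) ^ H.card ≤ d / 2 * h := by
    have e1 : B ≤ d / 2 * Real.log x := by
      rw [div_le_iff₀ hd] at g3
      linarith
    have e2 : B * h ≤ d / 2 * Real.log x * h := mul_le_mul_of_nonneg_right e1 hh0
    have e3 : (∑ j ∈ J, (num Q (insert j H) x (x + h) : ℝ)) * (Real.log x) ^ H.card * Real.log x ≤
        (d / 2 * h) * Real.log x := by linarith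
    exact le_of_mul_le_mul_right e3 hL
  have g5 := abs_le.1 (g1 h h3 h4)
  have hLk : 0 < (Real.log x) ^ H.card := by positivity
  rw [abs_le]
  have c5 : (numx Q H x (x + h) : ℝ) * (Real.log x) ^ H.card ≤ num Q H x (x + h) * (Real.log x) ^ H.card :=
    mul_le_mul_of_nonneg_right c1 hLk.le
  have c6 : (num Q H x (x + h) : ℝ) * (Real.log x) ^ H.card ≤ numx Q H x (x + h) * (Real.log x) ^ H.card +
      (∑ j ∈ J, (num Q (insert j H) x (x + h) : ℝ)) * (Real.log x) ^ H.card := by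
    rw [← add_mul]
    exact mul_le_mul_of_nonneg_right c2 hLk.le
  constructor
  · linarith [g5.1]
  · nlinarith [g5.2]

/-- the number of the exact patterns between `n ^ e` and `(n + 1) ^ e` -/
noncomputable def powx (Q : Set ℕ) (H : Finset ℕ) (e n : ℕ) : ℕ :=
  {p : ℕ | n ^ e < p ∧ p + H.sup id < (n + 1) ^ e ∧ ∀ j ≤ H.sup id, (p + j ∈ Q ↔ j ∈ H)}.ncard

/-- **Exact patterns between consecutive powers.** -/
theorem exact_pow (hS : S_SIN) (hP : S_PWR) {Q : Set ℕ} (hQ : LawH Q) (H : Finset ℕ) (c : ℝ)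
    (hc : Tendsto (PP H) atTop (𝓝 c)) (e : ℕ) (he : 2 ≤ e) :
    Tendsto (fun n : ℕ => (powx Q H e n : ℝ) * (Real.log n) ^ H.card / (n : ℝ) ^ (e - 1)) atTop
      (𝓝 (c * e / (e : ℝ) ^ H.card)) := by
  classical
  choose cc hcc0 hcc using ex_lim hS
  obtain ⟨m, hm⟩ : ∃ m, m = H.sup id := ⟨_, rfl⟩
  obtain ⟨J, hJ⟩ : ∃ J, J = (range (H.sup id + 1)) \ H := ⟨_, rfl⟩
  set f : Finset ℕ → ℕ → ℝ := fun K n =>
    ({p : ℕ | n ^ e < p ∧ p + m < (n + 1) ^ e ∧ ∀ h ∈ K, p + h ∈ Q}.ncard : ℝ) with hf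
  have hfin : ∀ (n : ℕ) (P : ℕ → Prop), {p : ℕ | n ^ e < p ∧ p + m < (n + 1) ^ e ∧ P p}.Finite := fun n P =>
    (Set.finite_Iic ((n + 1) ^ e)).subset fun p hp => by
      have := hp.2.1
      simp only [Set.mem_Iic]
      omega
  have h1 : Tendsto (fun n : ℕ => f H n * (Real.log n) ^ H.card / (n : ℝ) ^ (e - 1)) atTop
      (𝓝 (c * e / (e : ℝ) ^ H.card)) := hP Q hQ H c hc e m he
  have h2 : ∀ j ∈ J, Tendsto (fun n : ℕ => f (insert j H) n * (Real.log n) ^ H.card / (n : ℝ) ^ (e - 1)) atTop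
      (𝓝 0) := by
    intro j hj
    have h3 := hP Q hQ (insert j H) _ (hcc _) e m he
    have e2 : (insert j H).card = H.card + 1 := by
      apply card_insert_of_notMem
      rw [hJ] at hj
      exact (Finset.mem_sdiff.1 hj).2
    rw [e2] at h3
    have h4 := h3.div_atTop tlog
    refine h4.congr' ?_
    filter_upwards [tlog.eventually_gt_atTop 0] with n hn
    have : Real.log n ≠ 0 := hn.ne'
    rw [pow_succ]
    field_simp
    rfl
  have h3 : Tendsto (fun n : ℕ => ∑ j ∈ J, f (insert j H) n * (Real.log n) ^ H.card / (n : ℝ) ^ (e - 1)) atTop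
      (𝓝 0) := by
    have := tendsto_finsetSum J h2
    simpa using this
  have h4 := h1.sub h3
  rw [sub_zero] at h4
  have hb : ∀ n, (powx Q H e n : ℝ) ≤ f H n ∧ f H n ≤ powx Q H e n + ∑ j ∈ J, f (insert j H) n := by
    intro n
    constructor
    · have : powx Q H e n ≤ {p : ℕ | n ^ e < p ∧ p + m < (n + 1) ^ e ∧ ∀ h ∈ H, p + h ∈ Q}.ncard := by
        apply Set.ncard_le_ncard _ (hfin n _)
        rintro p ⟨h1, h2, h3⟩
        exact ⟨h1, by rw [hm]; exact h2, fun h hh => (h3 h (Finset.le_sup (f := id) hh)).2 hh⟩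
      simp only [hf]
      exact_mod_cast this
    · have h1 : {p : ℕ | n ^ e < p ∧ p + m < (n + 1) ^ e ∧ ∀ h ∈ H, p + h ∈ Q} ⊆
          {p : ℕ | n ^ e < p ∧ p + m < (n + 1) ^ e ∧ ∀ j ≤ H.sup id, (p + j ∈ Q ↔ j ∈ H)} ∪
            ⋃ j ∈ J, {p : ℕ | n ^ e < p ∧ p + m < (n + 1) ^ e ∧ ∀ h ∈ insert j H, p + h ∈ Q} := by
        rintro p ⟨h1, h2, h3⟩
        by_cases h4 : ∀ j ≤ H.sup id, (p + j ∈ Q ↔ j ∈ H)
        · exact Or.inl ⟨h1, h2, h4⟩
        · push Not at h4
          obtain ⟨j, hj, h5⟩ := h4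
          have h6 : p + j ∈ Q ∧ j ∉ H := by
            rcases h5 with h5 | h5
            · exact h5
            · exact absurd (h3 j h5.2) h5.1
          refine Or.inr ?_
          simp only [Set.mem_iUnion]
          refine ⟨j, by rw [hJ]; exact Finset.mem_sdiff.2 ⟨Finset.mem_range.2 (by omega), h6.2⟩, h1, h2, fun h hh => ?_⟩
          rcases Finset.mem_insert.1 hh with rfl | hh
          · exact h6.1
          · exact h3 h hh
      have hfin2 : (⋃ j ∈ J, {p : ℕ | n ^ e < p ∧ p + m < (n + 1) ^ e ∧ ∀ h ∈ insert j H, p + h ∈ Q}).Finite :=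
        Set.Finite.biUnion (Finset.finite_toSet _) (fun j _ => hfin n _)
      have : {p : ℕ | n ^ e < p ∧ p + m < (n + 1) ^ e ∧ ∀ h ∈ H, p + h ∈ Q}.ncard ≤ powx Q H e n +
          ∑ j ∈ J, {p : ℕ | n ^ e < p ∧ p + m < (n + 1) ^ e ∧ ∀ h ∈ insert j H, p + h ∈ Q}.ncard := by
        calc _ ≤ _ := Set.ncard_le_ncard h1 ((hfin n _).union hfin2)
          _ ≤ _ := Set.ncard_union_le _ _
          _ ≤ _ := by
            unfold powx
            rw [hm]
            apply Nat.add_le_add_left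
            exact Finset.set_ncard_biUnion_le _ _
      simp only [hf]
      exact_mod_cast this
  refine tendsto_of_tendsto_of_tendsto_of_le_of_le' h4 h1 ?_ ?_
  · filter_upwards [tlog.eventually_gt_atTop 0] with n hn
    have hLk : 0 ≤ (Real.log n) ^ H.card / (n : ℝ) ^ (e - 1) := by positivity
    have h5 := mul_le_mul_of_nonneg_right (hb n).2 hLk
    rw [add_mul, Finset.sum_mul] at h5
    simp only [mul_div_assoc] at h5 ⊢
    linarith
  · filter_upwards [tlog.eventually_gt_atTop 0] with n hn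
    have hLk : 0 ≤ (Real.log n) ^ H.card / (n : ℝ) ^ (e - 1) := by positivity
    have h5 := mul_le_mul_of_nonneg_right (hb n).1 hLk
    simp only [mul_div_assoc] at h5 ⊢
    exact h5

end Pool.Agent.U485.SM
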