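import Pool.Agent.U485.SM.Fix

set_option autoImplicit false

/-!
# Pairs with a fixed sum: lower bounds, and the pairs between consecutive squares
-/

open Finset MeasureTheory ProbabilityTheory Filter Topology

namespace Pool.Agent.U485.SM

/-- the number of the `k` of the problem MP_e94e4b_nt -/
noncomputable def sqp (Q : Set ℕ) (N : ℕ) : ℕ :=
  {k : ℕ | 2 ≤ k ∧ k ≤ 2 * N ∧ N ^ 2 + k + 1 ∈ Q ∧ (N + 1) ^ 2 - k ∈ Q}.ncard

theorem sqp_eq (Q : Set ℕ) (N : ℕ) (hN : 1 ≤ N) : prs Q (2 * N ^ 2 + 2 * N + 2) (N ^ 2 + 2) (2 * N - 1) = sqp Q N := by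
  unfold prs sqp
  have : {k : ℕ | N ^ 2 + 2 < k ∧ k ≤ N ^ 2 + 2 + (2 * N - 1) ∧ k ∈ Q ∧ 2 * N ^ 2 + 2 * N + 2 - k ∈ Q} =
      (fun k : ℕ => N ^ 2 + k + 1) '' {k : ℕ | 2 ≤ k ∧ k ≤ 2 * N ∧ N ^ 2 + k + 1 ∈ Q ∧ (N + 1) ^ 2 - k ∈ Q} := by
    ext m
    simp only [Set.mem_ofPred_eq, Set.mem_image]
    constructor
    · rintro ⟨h1, h2, h3, h4⟩
      refine ⟨m - N ^ 2 - 1, ⟨by omega, by omega, ?_, ?_⟩, by omega⟩
      · rwa [show N ^ 2 + (m - N ^ 2 - 1) + 1 = m by omega]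
      · have : (N + 1) ^ 2 - (m - N ^ 2 - 1) = 2 * N ^ 2 + 2 * N + 2 - m := by
          have e : (N + 1) ^ 2 = N ^ 2 + 2 * N + 1 := by ring
          omega
        rwa [this]
    · rintro ⟨k, ⟨h1, h2, h3, h4⟩, rfl⟩
      refine ⟨by omega, by omega, h3, ?_⟩
      have : 2 * N ^ 2 + 2 * N + 2 - (N ^ 2 + k + 1) = (N + 1) ^ 2 - k := by
        have e : (N + 1) ^ 2 = N ^ 2 + 2 * N + 1 := by ring
        omega
      rwa [this]
  rw [this]
  exact Set.ncard_image_of_injective _ (fun a b h => by have h' : N ^ 2 + a + 1 = N ^ 2 + b + 1 := h; omega)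

theorem tsq : Tendsto (fun N : ℕ => N ^ 2) atTop atTop := tendsto_pow_atTop (by norm_num)

/-- consequences of the asymptotic formula for pairs with a fixed sum -/
theorem pairs_low {Q : Set ℕ} {T : ℕ → ℕ} (hT2 : ∀ᶠ n in atTop, 2 ≤ T n) {C : ℝ} (hC0 : 0 < C)
    (hC : Tendsto K2 atTop (𝓝 C))
    (h : ∀ (A : ℕ) (d η : ℝ), 0 < d → 0 < η → ∀ᶠ x : ℕ in atTop, ∀ M a h : ℕ,
      x ≤ a → a + h + x ≤ M → M ≤ A * x → (x : ℝ) ^ η ≤ h →
        |(prs Q M a h : ℝ) * (Real.log x) ^ 2 - SgP T M a h| ≤ d * (SgP T M a h + h)) :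
    ∀ (A : ℕ) (δ η : ℝ), 0 < δ → 0 < η → ∀ᶠ x : ℕ in atTop, ∀ M a h : ℕ, Even M →
      x ≤ a → a + h + x ≤ M → M ≤ A * x → (x : ℝ) ^ η ≤ h →
        |(prs Q M a h : ℝ) * (Real.log x) ^ 2 - SgP T M a h| ≤ δ * SgP T M a h ∧
        (2 * C - δ) * h ≤ (prs Q M a h : ℝ) * (Real.log x) ^ 2 := by
  intro A δ η hδ hη
  obtain ⟨n₀, hn₀⟩ := eventually_atTop.1 hT2
  obtain ⟨d, hd⟩ : ∃ d, d = min (δ / 2) (min (δ * C) (δ / (2 * C + 1))) := ⟨_, rfl⟩
  have hd0 : 0 < d := by rw [hd]; exact lt_min (by positivity) (lt_min (by positivity) (by positivity))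
  have hd1 : d ≤ δ / 2 := by rw [hd]; exact min_le_left _ _
  have hd2 : d ≤ δ * C := by rw [hd]; exact (min_le_right _ _).trans (min_le_left _ _)
  have hd3 : d * (2 * C + 1) ≤ δ := by
    have : d ≤ δ / (2 * C + 1) := by rw [hd]; exact (min_le_right _ _).trans (min_le_right _ _)
    rwa [le_div_iff₀ (by positivity)] at this
  filter_upwards [h A d η hd0 hη, eventually_ge_atTop n₀] with x hx hx0 M a l hM h1 h2 h3 h4
  have g1 := hx M a l h1 h2 h3 h4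
  have g2 := SgP_ge hC (x := x) (T := T) (fun n hn => hn₀ n (by omega)) hM h1 h2
  have hl0 : (0 : ℝ) ≤ l := by positivity
  have g3 : d * l ≤ δ / 2 * SgP T M a l := by
    calc d * l ≤ δ * C * l := mul_le_mul_of_nonneg_right hd2 hl0
      _ = δ / 2 * (2 * C * l) := by ring
      _ ≤ _ := mul_le_mul_of_nonneg_left g2 (by positivity)
  have hS0 : 0 ≤ SgP T M a l := le_trans (by positivity) g2
  refine ⟨g1.trans ?_, ?_⟩
  · calc d * (SgP T M a l + l) = d * SgP T M a l + d * l := by ring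
      _ ≤ δ / 2 * SgP T M a l + δ / 2 * SgP T M a l := add_le_add (mul_le_mul_of_nonneg_right hd1 hS0) g3
      _ = _ := by ring
  · have g4 := (abs_le.1 g1).1
    by_cases hdd : d ≤ 1
    · nlinarith [mul_le_mul_of_nonneg_right hd3 hl0, mul_le_mul_of_nonneg_left g2 (sub_nonneg.2 hdd)]
    · have : 2 * C - δ ≤ 0 := by
        push Not at hdd
        nlinarith
      have g5 : 0 ≤ (prs Q M a l : ℝ) * (Real.log x) ^ 2 := by positivity
      nlinarith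

/-- the pairs between consecutive squares -/
theorem sq_low {Q : Set ℕ} {T : ℕ → ℕ} {C : ℝ}
    (h : ∀ (A : ℕ) (δ η : ℝ), 0 < δ → 0 < η → ∀ᶠ x : ℕ in atTop, ∀ M a h : ℕ, Even M →
      x ≤ a → a + h + x ≤ M → M ≤ A * x → (x : ℝ) ^ η ≤ h →
        |(prs Q M a h : ℝ) * (Real.log x) ^ 2 - SgP T M a h| ≤ δ * SgP T M a h ∧
        (2 * C - δ) * h ≤ (prs Q M a h : ℝ) * (Real.log x) ^ 2) :
    ∀ δ : ℝ, 0 < δ → ∀ᶠ N : ℕ in atTop, (C - δ) * N / (Real.log N) ^ 2 ≤ (sqp Q N : ℝ) ∧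
      |(sqp Q N : ℝ) * (2 * Real.log N) ^ 2 - SgP T (2 * N ^ 2 + 2 * N + 2) (N ^ 2 + 2) (2 * N - 1)| ≤
        δ * SgP T (2 * N ^ 2 + 2 * N + 2) (N ^ 2 + 2) (2 * N - 1) := by
  intro δ hδ
  filter_upwards [tsq.eventually (h 6 δ (1 / 4) hδ (by norm_num)), eventually_ge_atTop 3,
    (tendsto_natCast_atTop_atTop (R := ℝ)).eventually_ge_atTop (C / δ)] with N hN h3 hNC
  have hN1 : (3 : ℝ) ≤ N := by exact_mod_cast h3
  have g := hN (2 * N ^ 2 + 2 * N + 2) (N ^ 2 + 2) (2 * N - 1) ?_ (by omega) (by omega) ?_ ?_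
  · rw [sqp_eq Q N (by omega)] at g
    have e1 : Real.log ((N ^ 2 : ℕ) : ℝ) = 2 * Real.log N := by
      push_cast
      rw [Real.log_pow]
      norm_num
    rw [e1] at g
    refine ⟨?_, g.1⟩
    have hL : 0 < Real.log N := Real.log_pos (by linarith)
    rw [div_le_iff₀ (by positivity)]
    have g2 := g.2
    have e2 : ((2 * N - 1 : ℕ) : ℝ) = 2 * N - 1 := by
      rw [Nat.cast_sub (by omega)]
      push_cast
      ring
    rw [e2] at g2
    rw [div_le_iff₀ hδ] at hNC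
    nlinarith
  · rw [Nat.even_iff]
    omega
  · nlinarith
  · rw [show ((N ^ 2 : ℕ) : ℝ) = (N : ℝ) ^ (2 : ℝ) by push_cast; norm_cast, ← Real.rpow_mul (by positivity)]
    have e2 : ((2 * N - 1 : ℕ) : ℝ) = 2 * N - 1 := by
      rw [Nat.cast_sub (by omega)]
      push_cast
      ring
    rw [e2]
    calc (N : ℝ) ^ ((2 : ℝ) * (1 / 4)) ≤ (N : ℝ) ^ (1 : ℝ) :=
          Real.rpow_le_rpow_of_exponent_le (by linarith) (by norm_num)
      _ = N := Real.rpow_one _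
      _ ≤ 2 * N - 1 := by linarith

end Pool.Agent.U485.SM
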