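import Pool.Agent.U485.SM.Law
import Pool.Agent.U485.SM.Fix2
import Pool.Agent.U485.SM.Exact
import Pool.Agent.U200.HT.WIN
import Pool.Agent.U44.HT.FUL
import Pool.Agent.U2.HT.PWR
import Pool.Agent.U864.HT.CO2
import Pool.Agent.U165.HT.CO3
import Pool.Agent.U690.HT.CO4
import Pool.Agent.U934.HT.SIN
import Pool.Agent.U61.HT.SEX
import Pool.Agent.U122.HT.FIV
import Pool.Agent.U591.HT.TRP
import Pool.Agent.U588.HT.DMR

set_option autoImplicit false

/-!
# Collection of the packages of the second round (project HT)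

WIN (helper200), FUL (helper44), PWR (helper2), CO2 (helper864), CO3 (helper165), CO4 (helper690), SIN (helper934),
SEX (helper61), FIV (helper122), TRP (helper591), DMR (helper588), FIX (helper618).
-/

open Finset MeasureTheory ProbabilityTheory Filter Topology

namespace Pool.Agent.U485.SM

theorem win : S_WIN := Pool.Agent.U200.HT.t_WIN
theorem ful : S_FUL := Pool.Agent.U44.HT.t_FUL
theorem pwr : S_PWR := Pool.Agent.U2.HT.t_PWR
theorem co2 : S_CO2 := Pool.Agent.U864.HT.t_CO2
theorem co3 : S_CO3 := Pool.Agent.U165.HT.CO3.t_CO3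
theorem co4 : S_CO4 := Pool.Agent.U690.HT.t_CO4
theorem sin : S_SIN := Pool.Agent.U934.HT.t_SIN
theorem sex : S_SEX := Pool.Agent.U61.HT.t_SEX
theorem fiv : S_FIV := Pool.Agent.U122.HT.t_FIV
theorem trp : S_TRP := Pool.Agent.U591.HT.t_TRP
theorem dmr : S_DMR := Pool.Agent.U588.HT.t_DMR ful

variable {Ω : Type} [m1 : MeasurableSpace Ω] {μ : Measure Ω} [hμ : IsProbabilityMeasure μ]
    {T : ℕ → ℕ} (hT : Monotone T) (hTt : Tendsto T atTop atTop)
    (hTs : ∀ ε : ℝ, 0 < ε → ∀ᶠ n : ℕ in atTop, (T n : ℝ) ≤ (n : ℝ) ^ ε) {E : ℕ → Set Ω} (hE : Model μ T E)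

include hT hTt hTs hE

/-- almost surely the law for shifts holds -/
theorem as_H : ∀ᵐ ω ∂μ, LawH {m | ω ∈ E m} := ae_LawH win hT hTs hTt hE

omit hT hTt hTs hE in
/-- the quotient form of the law in windows -/
theorem quot {N c L d h : ℝ} (hh : 0 < h) (h1 : |N * L - c * h| ≤ d * h) : |N * L / h - c| ≤ d := by
  have : N * L / h - c = (N * L - c * h) / h := by field_simp
  rw [this, abs_div, abs_of_pos hh, div_le_iff₀ hh]
  exact h1

end Pool.Agent.U485.SM
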