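import Pool.Agent.U485.SM.Stm

set_option autoImplicit false

/-!
# Assembly (project HT)
-/

open Finset MeasureTheory ProbabilityTheory Filter Topology

namespace Pool.Agent.U485.SM

/-- The sieved random model: `E n` is the event that `n` is chosen. -/
structure Model {Ω : Type} [MeasurableSpace Ω] (μ : Measure Ω) (T : ℕ → ℕ) (E : ℕ → Set Ω) : Prop where
  meas : ∀ n, MeasurableSet (E n)
  indep : iIndepSet E μ
  law : ∀ n : ℕ, μ.real (E n) = min 1 (fT T n / Real.log n)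

theorem W_pos (t : ℕ) : 0 < W t := by
  unfold W
  apply prod_pos
  intro p hp
  have h1 : (1 : ℝ) < p := by
    have : p.Prime := (mem_filter.mp hp).2
    exact_mod_cast this.one_lt
  rw [inv_pos, sub_pos, div_lt_one (by linarith)]
  exact h1

theorem fT_nonneg (T : ℕ → ℕ) (m : ℕ) : 0 ≤ fT T m := by
  unfold fT
  split_ifs
  · exact (W_pos _).le
  · exact le_rfl

theorem fT_le (T : ℕ → ℕ) (m : ℕ) : fT T m ≤ W (T m) := by
  unfold fT
  split_ifs
  · exact le_rfl
  · exact (W_pos _).le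

theorem tlog : Tendsto (fun n : ℕ => Real.log (n : ℝ)) atTop atTop :=
  Real.tendsto_log_atTop.comp tendsto_natCast_atTop_atTop

/-- the densities are at most one -/
theorem dens (hW : S_WBD) (T : ℕ → ℕ) (hTs : ∀ ε : ℝ, 0 < ε → ∀ᶠ n : ℕ in atTop, (T n : ℝ) ≤ (n : ℝ) ^ ε) :
    ∀ᶠ n : ℕ in atTop, fT T n / Real.log n ≤ 1 := by
  obtain ⟨C, hC, hW⟩ := hW
  filter_upwards [hTs (1 / (2 * C)) (by positivity), tlog.eventually_ge_atTop (2 * C),
    eventually_gt_atTop 1] with n h1 h2 h3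
  have hn1 : (1 : ℝ) < n := by exact_mod_cast h3
  have hn0 : (0 : ℝ) < n := by linarith
  have hL : 0 < Real.log n := Real.log_pos hn1
  rw [div_le_iff₀ hL]
  refine (fT_le T n).trans ((hW (T n)).trans ?_)
  have h4 : Real.log (T n) ≤ 1 / (2 * C) * Real.log n := by
    rcases Nat.eq_zero_or_pos (T n) with h5 | h5
    · rw [h5, Nat.cast_zero, Real.log_zero]
      positivity
    · have h6 : (0 : ℝ) < T n := by exact_mod_cast h5
      have := Real.log_le_log h6 h1
      rwa [Real.log_rpow hn0] at this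
  have h7 : C * Real.log (T n) ≤ C * (1 / (2 * C) * Real.log n) := by gcongr
  have h8 : C * (1 / (2 * C) * Real.log n) = 1 / 2 * Real.log n := by field_simp
  linarith

theorem law' (hW : S_WBD) {Ω : Type} [MeasurableSpace Ω] {μ : Measure Ω} {T : ℕ → ℕ} {E : ℕ → Set Ω}
    (hE : Model μ T E) (hTs : ∀ ε : ℝ, 0 < ε → ∀ᶠ n : ℕ in atTop, (T n : ℝ) ≤ (n : ℝ) ^ ε) :
    ∃ n₀ : ℕ, 2 ≤ n₀ ∧ ∀ n, n₀ ≤ n → μ.real (E n) = fT T n / Real.log n := by
  obtain ⟨n₀, hn₀⟩ := eventually_atTop.1 (dens hW T hTs)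
  refine ⟨max n₀ 2, le_max_right _ _, fun n hn => ?_⟩
  rw [hE.law n, min_eq_right (hn₀ n ((le_max_left _ _).trans hn))]

/-- the mean, two-sided -/
theorem mean_two {Ω : Type} [MeasurableSpace Ω] {μ : Measure Ω} {T : ℕ → ℕ} {E : ℕ → Set Ω} {n₀ : ℕ}
    (hn₀ : 2 ≤ n₀) (hlaw : ∀ n, n₀ ≤ n → μ.real (E n) = fT T n / Real.log n)
    (F : Finset (ℤ × ℤ)) (V : Finset ℤ) (x X : ℝ) (hx : (n₀ : ℝ) ≤ x)
    (hval : ∀ n ∈ V, ∀ f ∈ F, x ≤ val f n ∧ (val f n : ℝ) ≤ X) :
    (∑ n ∈ V, ∏ f ∈ F, fT T (val f n).toNat) / (Real.log X) ^ F.card ≤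
        ∑ n ∈ V, ∏ f ∈ F, μ.real (E (val f n).toNat) ∧
      ∑ n ∈ V, ∏ f ∈ F, μ.real (E (val f n).toNat) ≤
        (∑ n ∈ V, ∏ f ∈ F, fT T (val f n).toNat) / (Real.log x) ^ F.card := by
  have hn₀R : (2 : ℝ) ≤ n₀ := by exact_mod_cast hn₀
  have hlx : 0 < Real.log x := Real.log_pos (by linarith)
  have key : ∀ n ∈ V, ∀ f ∈ F, fT T (val f n).toNat / Real.log X ≤ μ.real (E (val f n).toNat) ∧
      μ.real (E (val f n).toNat) ≤ fT T (val f n).toNat / Real.log x := by
    intro n hn f hf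
    obtain ⟨h1, h2⟩ := hval n hn f hf
    have h3 : (0 : ℝ) < val f n := by linarith
    have h4 : 0 < val f n := by exact_mod_cast h3
    have h5 : (((val f n).toNat : ℕ) : ℝ) = val f n := by
      have : (((val f n).toNat : ℕ) : ℤ) = val f n := Int.toNat_of_nonneg h4.le
      exact_mod_cast this
    have h6 : n₀ ≤ (val f n).toNat := by
      have : (n₀ : ℝ) ≤ ((val f n).toNat : ℕ) := by rw [h5]; linarith
      exact_mod_cast this
    rw [hlaw _ h6, h5]
    have h7 : Real.log x ≤ Real.log (val f n) := Real.log_le_log (by linarith) h1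
    have h8 : Real.log (val f n) ≤ Real.log X := Real.log_le_log h3 h2
    have h9 := fT_nonneg T (val f n).toNat
    constructor
    · exact div_le_div_of_nonneg_left h9 (by linarith) h8
    · exact div_le_div_of_nonneg_left h9 hlx h7
  have hXx : ∀ n ∈ V, ∀ f ∈ F, 0 ≤ Real.log X := by
    intro n hn f hf
    obtain ⟨h1, h2⟩ := hval n hn f hf
    exact Real.log_nonneg (by linarith)
  constructor
  · rw [sum_div]
    apply sum_le_sum
    intro n hn
    rw [← prod_const, ← prod_div_distrib]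
    apply Finset.prod_le_prod
    · intro f hf
      exact div_nonneg (fT_nonneg _ _) (hXx n hn f hf)
    · intro f hf
      exact (key n hn f hf).1
  · rw [sum_div]
    apply sum_le_sum
    intro n hn
    rw [← prod_const, ← prod_div_distrib]
    apply Finset.prod_le_prod
    · intro f hf
      exact measureReal_nonneg
    · intro f hf
      exact (key n hn f hf).2

theorem Sg_nonneg (F : Finset (ℤ × ℤ)) (t : ℤ × ℤ → ℕ) : 0 ≤ Sg F t := by
  classical
  unfold Sg
  apply mul_nonneg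
  · apply prod_nonneg
    intro p hp
    have hp1 : p.Prime := (mem_filter.mp hp).2
    have h1 : (Om F t p).card ≤ p := by
      unfold Om
      exact (card_filter_le _ _).trans (by rw [card_range])
    rw [sub_nonneg, div_le_one (by exact_mod_cast hp1.pos)]
    exact_mod_cast h1
  · exact prod_nonneg fun f _ => (W_pos _).le

/-- powers of small quantities -/
theorem T_small (T : ℕ → ℕ) (hTs : ∀ ε : ℝ, 0 < ε → ∀ᶠ n : ℕ in atTop, (T n : ℝ) ≤ (n : ℝ) ^ ε)
    (K : ℝ) (D C : ℕ) (hC : 1 ≤ C) (ε : ℝ) (hε : 0 < ε) :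
    ∀ᶠ x : ℕ in atTop, K * ((T (x ^ C) : ℝ) + 2) ^ D ≤ (x : ℝ) ^ ε := by
  have hC0 : (0 : ℝ) < C := by exact_mod_cast hC
  have hD0 : (0 : ℝ) < D + 1 := by positivity
  have h1 : Tendsto (fun x : ℕ => x ^ C) atTop atTop := tendsto_pow_atTop (by omega)
  have e1 := h1.eventually (hTs (ε / (4 * (D + 1) * C)) (by positivity))
  have e2 : ∀ᶠ x : ℕ in atTop, 3 ≤ (x : ℝ) ^ (ε / (4 * (D + 1))) :=
    ((tendsto_rpow_atTop (by positivity)).comp tendsto_natCast_atTop_atTop).eventually_ge_atTop _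
  have e3 : ∀ᶠ x : ℕ in atTop, |K| ≤ (x : ℝ) ^ (ε / 4) :=
    ((tendsto_rpow_atTop (by positivity)).comp tendsto_natCast_atTop_atTop).eventually_ge_atTop _
  filter_upwards [e1, e2, e3, eventually_ge_atTop 1] with x g1 g2 g3 g4
  have hx1 : (1 : ℝ) ≤ x := by exact_mod_cast g4
  have hx0 : (0 : ℝ) < x := by linarith
  have k1 : (T (x ^ C) : ℝ) ≤ (x : ℝ) ^ (ε / (4 * (D + 1))) := by
    refine g1.trans (le_of_eq ?_)
    push_cast
    rw [← Real.rpow_natCast, ← Real.rpow_mul hx0.le]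
    congr 1
    field_simp
  set y := (x : ℝ) ^ (ε / (4 * (D + 1))) with hy
  have hy0 : 0 < y := by positivity
  have k2 : (T (x ^ C) : ℝ) + 2 ≤ y ^ 2 := by nlinarith
  have k3 : ((T (x ^ C) : ℝ) + 2) ^ D ≤ (x : ℝ) ^ (ε / 2) := by
    calc ((T (x ^ C) : ℝ) + 2) ^ D ≤ (y ^ 2) ^ D := by
          apply pow_le_pow_left₀ (by positivity) k2
      _ = (x : ℝ) ^ (ε / (4 * (D + 1)) * ((2 * D : ℕ) : ℝ)) := by
          rw [← pow_mul, hy, ← Real.rpow_natCast, ← Real.rpow_mul hx0.le]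
      _ ≤ (x : ℝ) ^ (ε / 2) := by
          apply Real.rpow_le_rpow_of_exponent_le hx1
          push_cast
          rw [div_mul_eq_mul_div, div_le_div_iff₀ (by positivity) (by norm_num)]
          nlinarith
  calc K * ((T (x ^ C) : ℝ) + 2) ^ D ≤ |K| * ((T (x ^ C) : ℝ) + 2) ^ D :=
        mul_le_mul_of_nonneg_right (le_abs_self K) (by positivity)
    _ ≤ (x : ℝ) ^ (ε / 4) * (x : ℝ) ^ (ε / 2) := by
        apply mul_le_mul g3 k3 (by positivity) (by positivity)
    _ = (x : ℝ) ^ (ε / 4 + ε / 2) := by rw [← Real.rpow_add hx0]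
    _ ≤ (x : ℝ) ^ ε := Real.rpow_le_rpow_of_exponent_le hx1 (by linarith)

/-- polylogarithms are small powers -/
theorem log_small (A : ℝ) (k : ℕ) (ε : ℝ) (hε : 0 < ε) :
    ∀ᶠ x : ℕ in atTop, A * (Real.log x) ^ k ≤ (x : ℝ) ^ ε := by
  have h1 := (isLittleO_log_rpow_atTop (r := ε / (2 * (k + 1))) (by positivity)).bound
    (show (0 : ℝ) < 1 by norm_num)
  have e3 : ∀ᶠ x : ℕ in atTop, |A| ≤ (x : ℝ) ^ (ε / 2) :=
    ((tendsto_rpow_atTop (by positivity)).comp tendsto_natCast_atTop_atTop).eventually_ge_atTop _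
  filter_upwards [tendsto_natCast_atTop_atTop.eventually h1, e3, eventually_ge_atTop 1] with x g1 g2 g3
  have hx1 : (1 : ℝ) ≤ x := by exact_mod_cast g3
  have hx0 : (0 : ℝ) < x := by linarith
  rw [Real.norm_of_nonneg (Real.log_nonneg hx1), Real.norm_of_nonneg (by positivity), one_mul] at g1
  have k3 : (Real.log x) ^ k ≤ (x : ℝ) ^ (ε / 2) := by
    calc (Real.log x) ^ k ≤ ((x : ℝ) ^ (ε / (2 * (k + 1)))) ^ k :=
          pow_le_pow_left₀ (Real.log_nonneg hx1) g1 k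
      _ = (x : ℝ) ^ (ε / (2 * (k + 1)) * (k : ℝ)) := by
          rw [← Real.rpow_natCast, ← Real.rpow_mul hx0.le]
      _ ≤ (x : ℝ) ^ (ε / 2) := by
          apply Real.rpow_le_rpow_of_exponent_le hx1
          rw [div_mul_eq_mul_div, div_le_div_iff₀ (by positivity) (by norm_num)]
          have : (0 : ℝ) ≤ k := Nat.cast_nonneg k
          nlinarith
  calc A * (Real.log x) ^ k ≤ |A| * (Real.log x) ^ k :=
        mul_le_mul_of_nonneg_right (le_abs_self A) (pow_nonneg (Real.log_nonneg hx1) k)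
    _ ≤ (x : ℝ) ^ (ε / 2) * (x : ℝ) ^ (ε / 2) := by
        apply mul_le_mul g2 k3 (pow_nonneg (Real.log_nonneg hx1) k) (by positivity)
    _ = (x : ℝ) ^ ε := by
        rw [← Real.rpow_add hx0]
        congr 1
        ring

end Pool.Agent.U485.SM
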