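import Pool.Agent.U485.SM.Asm

set_option autoImplicit false

/-!
# Assembly, second part: the two main theorems (project HT)
-/

open Finset MeasureTheory ProbabilityTheory Filter Topology

namespace Pool.Agent.U485.SM

variable {Ω : Type} [mΩ : MeasurableSpace Ω] {μ : Measure Ω} [hμ : IsProbabilityMeasure μ]

/-- the number of the `n` in `(J1, J2]` for which all values belong to `Q` -/
noncomputable def cnt (Q : Set ℕ) (F : Finset (ℤ × ℤ)) (J1 J2 : ℤ) : ℕ :=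
  {n : ℤ | J1 < n ∧ n ≤ J2 ∧ ∀ f ∈ F, 0 < val f n ∧ (val f n).toNat ∈ Q}.ncard

open Classical in
theorem cnt_eq (Q : Set ℕ) (F : Finset (ℤ × ℤ)) (J1 J2 : ℤ) (h : ∀ n ∈ Finset.Ioc J1 J2, ∀ f ∈ F, 0 < val f n) :
    cnt Q F J1 J2 = ((Finset.Ioc J1 J2).filter (fun n => ∀ f ∈ F, (val f n).toNat ∈ Q)).card := by
  unfold cnt
  rw [← Set.ncard_coe_finset]
  congr 1
  ext n
  simp only [Set.mem_ofPred_eq, coe_filter, Finset.mem_Ioc]
  constructor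
  · rintro ⟨h1, h2, h3⟩
    exact ⟨⟨h1, h2⟩, fun f hf => (h3 f hf).2⟩
  · rintro ⟨⟨h1, h2⟩, h3⟩
    exact ⟨h1, h2, fun f hf => ⟨h n (Finset.mem_Ioc.mpr ⟨h1, h2⟩) f hf, h3 f hf⟩⟩

theorem toNat_le {m : ℤ} {X : ℕ} (h : (m : ℝ) ≤ X) : m.toNat ≤ X := by
  have : m ≤ X := by exact_mod_cast h
  omega

/-- **Lower bound, uniform in the system and the window.** -/
theorem lower (hW : S_WBD) (hU : S_UNI) (hP : S_PCE) (hL : S_LOW) (k : ℕ) : ∃ c : ℝ, 0 < c ∧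
    ∀ (Ω : Type) (_ : MeasurableSpace Ω) (μ : Measure Ω) (_ : IsProbabilityMeasure μ) (T : ℕ → ℕ),
    Monotone T → (∀ ε : ℝ, 0 < ε → ∀ᶠ n : ℕ in atTop, (T n : ℝ) ≤ (n : ℝ) ^ ε) → ∀ E : ℕ → Set Ω, Model μ T E →
    ∀ᵐ ω ∂μ, ∀ C : ℕ, ∀ η : ℝ, 0 < η → ∀ᶠ x : ℕ in atTop, ∀ (F : Finset (ℤ × ℤ)) (J1 J2 : ℤ), F.card = k →
      (∀ f ∈ F, f.1 ≠ 0 ∧ |f.1| ≤ (x : ℤ) ^ C ∧ |f.2| ≤ (x : ℤ) ^ C ∧ IsCoprime f.1 f.2) →
      (∀ p : ℕ, p.Prime → ∃ r : ℕ, ∀ f ∈ F, ¬ (p : ℤ) ∣ val f r) →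
      |J1| ≤ (x : ℤ) ^ C → |J2| ≤ (x : ℤ) ^ C → (J1 : ℝ) + (x : ℝ) ^ η ≤ J2 →
      (∀ n ∈ Finset.Ioc J1 J2, ∀ f ∈ F, (x : ℝ) ^ η ≤ val f n) →
      c * ((J2 : ℝ) - J1) / ((C + 1) * Real.log x) ^ k ≤ cnt {m | ω ∈ E m} F J1 J2 := by
  classical
  obtain ⟨c, hc, hlow⟩ := hL k
  obtain ⟨K, D, hK, hpce⟩ := hP k 1
  refine ⟨c / (16 * 2 ^ k), by positivity, ?_⟩
  intro Ω m1 μ hμ T hT hTs E hE
  obtain ⟨n₀, hn₀, hlaw⟩ := law' hW hE hTs
  filter_upwards [hU Ω m1 μ hμ E hE.meas hE.indep] with ω hω C η hη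
  have e4 : ∀ᶠ x : ℕ in atTop, (n₀ : ℝ) ≤ (x : ℝ) ^ η :=
    ((tendsto_rpow_atTop (by positivity)).comp tendsto_natCast_atTop_atTop).eventually_ge_atTop _
  have e5 : ∀ᶠ x : ℕ in atTop, 4 * K / c * 1 ≤ (x : ℝ) ^ (η / 2) :=
    ((tendsto_rpow_atTop (by positivity)).comp tendsto_natCast_atTop_atTop).eventually_ge_atTop _
  filter_upwards [hω k C (1 / 2) (η / 4) (by norm_num) (by positivity),
    T_small T hTs (4 * K / c) D (2 * C + 1) (by omega) (η / 2) (by positivity),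
    log_small (16 * 2 ^ k * (C + 1) ^ k / c) k (η / 2) (by positivity),
    e4, eventually_ge_atTop 3] with x g1 g2 g3 g4 g5 F J1 J2 hF hf hadm hJ1 hJ2 hJ hval
  have hx3 : (3 : ℝ) ≤ x := by exact_mod_cast g5
  have hx0 : (0 : ℝ) < x := by linarith
  have hx1 : (1 : ℝ) ≤ x := by linarith
  have hxη : 1 ≤ (x : ℝ) ^ η := Real.one_le_rpow hx1 hη.le
  have hpos : ∀ n ∈ Finset.Ioc J1 J2, ∀ f ∈ F, 0 < val f n := by
    intro n hn f hf'
    have h1 := hval n hn f hf'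
    have h2 : (0 : ℝ) < val f n := by linarith
    exact_mod_cast h2
  -- upper bound for the values
  have hX : ∀ n ∈ Finset.Ioc J1 J2, ∀ f ∈ F, (val f n : ℝ) ≤ ((x ^ (2 * C + 1) : ℕ) : ℝ) := by
    intro n hn f hf'
    obtain ⟨-, h1, h2, -⟩ := hf f hf'
    rw [Finset.mem_Ioc] at hn
    have h3 : |n| ≤ (x : ℤ) ^ C := by
      rw [abs_le] at hJ1 hJ2 ⊢
      constructor <;> omega
    have hxZ : (3 : ℤ) ≤ x := by exact_mod_cast g5
    have hxC : (1 : ℤ) ≤ (x : ℤ) ^ C := one_le_pow₀ (by omega)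
    have h4 : val f n ≤ (x : ℤ) ^ (2 * C + 1) := by
      unfold val
      calc f.1 * n + f.2 ≤ |f.1 * n + f.2| := le_abs_self _
        _ ≤ |f.1| * |n| + |f.2| := (abs_add_le _ _).trans (by rw [abs_mul])
        _ ≤ (x : ℤ) ^ C * (x : ℤ) ^ C + (x : ℤ) ^ C := by
            have := mul_le_mul h1 h3 (abs_nonneg _) (by positivity)
            linarith
        _ ≤ (x : ℤ) ^ C * (x : ℤ) ^ C * x := by nlinarith [mul_pos (show (0:ℤ) < (x:ℤ)^C by omega) (show (0:ℤ) < (x:ℤ)^C by omega)]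
        _ = (x : ℤ) ^ (2 * C + 1) := by ring
    exact_mod_cast h4
  have hlen : 0 ≤ (J2 : ℝ) - J1 := by linarith
  have hJle : J1 ≤ J2 := by
    have : (J1 : ℝ) ≤ J2 := by linarith
    exact_mod_cast this
  set S := ∑ n ∈ Finset.Ioc J1 J2, Sg F (fun f => T (val f n).toNat) with hS
  have hSlow : c * ((J2 : ℝ) - J1) ≤ S := by
    have h1 := Finset.card_nsmul_le_sum (Finset.Ioc J1 J2) (fun n => Sg F (fun f => T (val f n).toNat)) c
      (fun n _ => hlow F _ hF.le (fun f hf' => (hf f hf').2.2.2) hadm)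
    rw [Int.card_Ioc, nsmul_eq_mul] at h1
    have h2 : (((J2 - J1).toNat : ℕ) : ℝ) = (J2 : ℝ) - J1 := by
      have : (((J2 - J1).toNat : ℕ) : ℤ) = J2 - J1 := Int.toNat_of_nonneg (by omega)
      have h3 : ((((J2 - J1).toNat : ℕ) : ℤ) : ℝ) = ((J2 - J1 : ℤ) : ℝ) := by rw [this]
      push_cast at h3
      exact h3
    rw [h2] at h1
    linarith
  have h1 := hpce T hT F J1 J2 (T (x ^ (2 * C + 1))) hF.le (fun f hf' => (hf f hf').2.2.2) hJle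
    (fun n hn f hf' => ⟨hpos n hn f hf', hT (toNat_le (hX n hn f hf'))⟩)
  rw [← hS, pow_one] at h1
  set P := ∑ n ∈ Finset.Ioc J1 J2, ∏ f ∈ F, fT T (val f n).toNat with hP'
  have h2 : K * ((T (x ^ (2 * C + 1)) : ℝ) + 2) ^ D ≤ S / 4 := by
    have h3 : 4 * K / c * ((T (x ^ (2 * C + 1)) : ℝ) + 2) ^ D ≤ (x : ℝ) ^ η :=
      g2.trans (Real.rpow_le_rpow_of_exponent_le hx1 (by linarith))
    have h4 : 4 * K / c * ((T (x ^ (2 * C + 1)) : ℝ) + 2) ^ D * c ≤ (x : ℝ) ^ η * c :=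
      mul_le_mul_of_nonneg_right h3 hc.le
    have h5 : 4 * K / c * ((T (x ^ (2 * C + 1)) : ℝ) + 2) ^ D * c = 4 * (K * ((T (x ^ (2 * C + 1)) : ℝ) + 2) ^ D) := by
      field_simp
    rw [h5] at h4
    have h6 : (x : ℝ) ^ η * c ≤ c * ((J2 : ℝ) - J1) := by
      rw [mul_comm]
      exact mul_le_mul_of_nonneg_left (by linarith) hc.le
    linarith
  have h3 : S / 4 ≤ P := by
    have h4 := (abs_le.1 h1).1
    linarith
  -- the mean
  have hxX : (n₀ : ℝ) ≤ (x : ℝ) ^ η := g4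
  obtain ⟨mm, -⟩ := mean_two hn₀ hlaw F (Finset.Ioc J1 J2) ((x : ℝ) ^ η) (((x ^ (2 * C + 1) : ℕ) : ℝ)) hxX
    (fun n hn f hf' => ⟨hval n hn f hf', hX n hn f hf'⟩)
  rw [← hP', hF] at mm
  set M := ∑ n ∈ Finset.Ioc J1 J2, ∏ f ∈ F, μ.real (E (val f n).toNat) with hM
  have hlogx : 0 < Real.log x := Real.log_pos (by linarith)
  have hlogX : Real.log ((x ^ (2 * C + 1) : ℕ) : ℝ) = (2 * C + 1) * Real.log x := by
    push_cast
    rw [Real.log_pow]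
    push_cast
    ring
  rw [hlogX] at mm
  have hu := g1 F J1 J2 hF.le (fun f hf' => ⟨(hf f hf').1, (hf f hf').2.1, (hf f hf').2.2.1⟩) hJ1 hJ2 hpos
  rw [← hM] at hu
  have hcnt := cnt_eq {m | ω ∈ E m} F J1 J2 hpos
  simp only [Set.mem_ofPred_eq] at hcnt
  rw [hcnt]
  have h7 := (abs_le.1 hu).1
  -- bounds
  have hLk : 0 < ((C + 1) * Real.log x) ^ k := by positivity
  have hden : ((2 * C + 1) * Real.log x) ^ k ≤ 2 ^ k * ((C + 1) * Real.log x) ^ k := by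
    rw [← mul_pow]
    apply pow_le_pow_left₀ (by positivity)
    nlinarith
  have hden0 : 0 < ((2 * C + 1) * Real.log x) ^ k := by positivity
  have h8 : c * ((J2 : ℝ) - J1) / (4 * (2 ^ k * ((C + 1) * Real.log x) ^ k)) ≤ M := by
    refine le_trans ?_ mm
    rw [div_le_div_iff₀ (by positivity) hden0]
    have h9 : c * ((J2 : ℝ) - J1) ≤ 4 * P := by linarith
    calc c * ((J2 : ℝ) - J1) * ((2 * C + 1) * Real.log x) ^ k
        ≤ 4 * P * (2 ^ k * ((C + 1) * Real.log x) ^ k) := by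
          apply mul_le_mul h9 hden hden0.le
          nlinarith [mul_nonneg hc.le hlen]
      _ = P * (4 * (2 ^ k * ((C + 1) * Real.log x) ^ k)) := by ring
  have h10 : (x : ℝ) ^ (η / 4) ≤ c * ((J2 : ℝ) - J1) / (16 * (2 ^ k * ((C + 1) * Real.log x) ^ k)) := by
    rw [le_div_iff₀ (by positivity)]
    have h12 : (16 * (2 ^ k * ((C + 1) * Real.log x) ^ k)) =
        c * (16 * 2 ^ k * (C + 1) ^ k / c * Real.log x ^ k) := by
      rw [mul_pow]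
      field_simp
    rw [h12]
    calc (x : ℝ) ^ (η / 4) * (c * (16 * 2 ^ k * (C + 1) ^ k / c * Real.log x ^ k))
        ≤ (x : ℝ) ^ (η / 4) * (c * (x : ℝ) ^ (η / 2)) := by
          apply mul_le_mul_of_nonneg_left _ (by positivity)
          exact mul_le_mul_of_nonneg_left g3 hc.le
      _ = c * (x : ℝ) ^ (η / 4 + η / 2) := by
          rw [Real.rpow_add hx0]
          ring
      _ ≤ c * (x : ℝ) ^ η := by
          apply mul_le_mul_of_nonneg_left _ hc.le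
          exact Real.rpow_le_rpow_of_exponent_le hx1 (by linarith)
      _ ≤ c * ((J2 : ℝ) - J1) := mul_le_mul_of_nonneg_left (by linarith) hc.le
  have h20 : c * ((J2 : ℝ) - J1) / (4 * (2 ^ k * ((C + 1) * Real.log x) ^ k)) =
      4 * (c * ((J2 : ℝ) - J1) / (16 * (2 ^ k * ((C + 1) * Real.log x) ^ k))) := by
    field_simp
    ring
  have h21 : c / (16 * 2 ^ k) * ((J2 : ℝ) - J1) / ((C + 1) * Real.log x) ^ k =
      c * ((J2 : ℝ) - J1) / (16 * (2 ^ k * ((C + 1) * Real.log x) ^ k)) := by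
    field_simp
  rw [h21]
  rw [h20] at h8
  linarith

end Pool.Agent.U485.SM
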