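import Pool.Agent.U485.SM.Asm2

set_option autoImplicit false

/-!
# Assembly, third part: asymptotics for a fixed system (project HT)
-/

open Finset MeasureTheory ProbabilityTheory Filter Topology

namespace Pool.Agent.U485.SM

/-- the arithmetic of the errors -/
theorem errs {N M P S H L c d δ : ℝ} (hδ0 : 0 < δ) (hδ1 : δ ≤ 1) (hH : 0 ≤ H) (hL : 0 < L) (hS : 0 ≤ S) (hP : 0 ≤ P)
    (hd : δ * (5 * |c| + 10) ≤ d)
    (h1 : |S - c * H| ≤ δ * H) (h2 : |P - S| ≤ δ * S + δ * H) (h3 : M * L ≤ P) (h4 : P ≤ (1 + δ) * (M * L))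
    (h5 : |N - M| * L ≤ δ * (M * L) + δ * H) : |N * L - c * H| ≤ d * H := by
  have hM : 0 ≤ M * L := by nlinarith
  have e1 : S ≤ (|c| + δ) * H := by
    have := (abs_le.1 h1).2
    have h6 : c * H ≤ |c| * H := mul_le_mul_of_nonneg_right (le_abs_self c) hH
    linarith
  have e2 : P ≤ (1 + δ) * S + δ * H := by
    have := (abs_le.1 h2).2
    linarith
  have hc0 := abs_nonneg c
  have e3 : P ≤ (2 * |c| + 3) * H := by
    have h6 : (1 + δ) * S ≤ 2 * S := by nlinarith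
    have h7 : 2 * S ≤ 2 * ((|c| + 1) * H) := by nlinarith
    nlinarith
  have e4 : S ≤ (|c| + 1) * H := by nlinarith
  have e5 : |M * L - P| ≤ δ * P := by
    rw [abs_le]
    constructor
    · nlinarith
    · nlinarith
  have e6 : |N * L - M * L| ≤ δ * P + δ * H := by
    rw [← sub_mul, abs_mul, abs_of_pos hL]
    have : δ * (M * L) ≤ δ * P := mul_le_mul_of_nonneg_left h3 hδ0.le
    linarith
  have e7 : |N * L - c * H| ≤ |N * L - M * L| + |M * L - P| + |P - S| + |S - c * H| := by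
    have a1 := abs_add_le (N * L - M * L + (M * L - P) + (P - S)) (S - c * H)
    have a2 := abs_add_le (N * L - M * L + (M * L - P)) (P - S)
    have a3 := abs_add_le (N * L - M * L) (M * L - P)
    have a4 : N * L - M * L + (M * L - P) + (P - S) + (S - c * H) = N * L - c * H := by ring
    rw [a4] at a1
    linarith
  have e8 : |N * L - c * H| ≤ δ * (2 * P + S + 3 * H) := by linarith
  have e9 : 2 * P + S + 3 * H ≤ (5 * |c| + 10) * H := by linarith
  calc |N * L - c * H| ≤ δ * (2 * P + S + 3 * H) := e8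
    _ ≤ δ * ((5 * |c| + 10) * H) := mul_le_mul_of_nonneg_left e9 hδ0.le
    _ = (δ * (5 * |c| + 10)) * H := by ring
    _ ≤ d * H := mul_le_mul_of_nonneg_right hd hH

/-- **Asymptotics for every fixed system, in all windows.** -/
theorem asym (hW : S_WBD) (hU : S_UNI) (hP : S_PCE) (hLim : S_LIM) {Ω : Type} [m1 : MeasurableSpace Ω]
    {μ : Measure Ω} [hμ : IsProbabilityMeasure μ] {T : ℕ → ℕ} (hT : Monotone T)
    (hTs : ∀ ε : ℝ, 0 < ε → ∀ᶠ n : ℕ in atTop, (T n : ℝ) ≤ (n : ℝ) ^ ε) (hTi : Tendsto T atTop atTop)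
    {E : ℕ → Set Ω} (hE : Model μ T E) :
    ∀ᵐ ω ∂μ, ∀ F : Finset (ℤ × ℤ), (∀ f ∈ F, IsCoprime f.1 f.2) → (∀ f ∈ F, f.1 ≠ 0) →
      (∀ f ∈ F, ∀ g ∈ F, f ≠ g → f.1 * g.2 ≠ g.1 * f.2) → ∀ c : ℝ,
      Tendsto (fun y : ℕ => ∏ p ∈ Pr y, ((1 - (nu F p : ℝ) / p) * (1 - 1 / (p : ℝ))⁻¹ ^ F.card)) atTop (𝓝 c) →
      ∀ (C : ℕ) (A d η : ℝ), 0 < d → 0 < η → ∀ᶠ x : ℕ in atTop, ∀ J1 J2 : ℤ,
        |J1| ≤ (x : ℤ) ^ C → |J2| ≤ (x : ℤ) ^ C → (J1 : ℝ) + (x : ℝ) ^ η ≤ J2 →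
        (∀ n ∈ Finset.Ioc J1 J2, ∀ f ∈ F, (x : ℝ) ≤ val f n ∧ (val f n : ℝ) ≤ A * x) →
        |(cnt {m | ω ∈ E m} F J1 J2 : ℝ) * (Real.log x) ^ F.card - c * ((J2 : ℝ) - J1)| ≤
          d * ((J2 : ℝ) - J1) := by
  classical
  obtain ⟨n₀, hn₀, hlaw⟩ := law' hW hE hTs
  filter_upwards [hU Ω m1 μ hμ E hE.meas hE.indep] with ω hω F hcop hne hpair c hc C A d η hd hη
  obtain ⟨k, hk⟩ : ∃ k, k = F.card := ⟨_, rfl⟩
  obtain ⟨δ, hδ⟩ : ∃ δ, δ = min 1 (d / (5 * |c| + 10)) := ⟨_, rfl⟩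
  have hc10 : 0 < 5 * |c| + 10 := by positivity
  have hδ0 : 0 < δ := by rw [hδ]; exact lt_min one_pos (div_pos hd hc10)
  have hδ1 : δ ≤ 1 := by rw [hδ]; exact min_le_left _ _
  have hδd : δ * (5 * |c| + 10) ≤ d := by
    have : δ ≤ d / (5 * |c| + 10) := by rw [hδ]; exact min_le_right _ _
    rwa [le_div_iff₀ hc10] at this
  obtain ⟨b₀, hb₀⟩ : ∃ b₀ : ℕ, (1 / 2 : ℝ) ^ b₀ ≤ δ := by
    obtain ⟨b, hb⟩ := exists_pow_lt_of_lt_one hδ0 (show (1 / 2 : ℝ) < 1 by norm_num)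
    exact ⟨b, hb.le⟩
  obtain ⟨K, D, hK, hpce⟩ := hP k b₀
  obtain ⟨t₀, ht₀⟩ := hLim F hcop hne hpair c hc δ hδ0
  obtain ⟨N₀, hN₀⟩ := eventually_atTop.1 (hTi.eventually_ge_atTop t₀)
  obtain ⟨B, hB⟩ : ∃ B, B = max A 1 := ⟨_, rfl⟩
  have hB1 : 1 ≤ B := by rw [hB]; exact le_max_right _ _
  have hAB : A ≤ B := by rw [hB]; exact le_max_left _ _
  -- eventual facts
  have e1 : ∀ᶠ x : ℕ in atTop, ∀ f ∈ F, |f.1| ≤ (x : ℤ) ^ (C + 1) ∧ |f.2| ≤ (x : ℤ) ^ (C + 1) := by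
    rw [eventually_all_finset]
    intro f _
    have h1 : Tendsto (fun x : ℕ => (x : ℤ) ^ (C + 1)) atTop atTop :=
      (tendsto_pow_atTop (by omega)).comp tendsto_natCast_atTop_atTop
    exact (h1.eventually_ge_atTop _).and (h1.eventually_ge_atTop _)
  have e2 : ∀ᶠ x : ℕ in atTop, B ≤ (x : ℝ) := tendsto_natCast_atTop_atTop.eventually_ge_atTop B
  have e3 : ∀ᶠ x : ℕ in atTop, (Real.log (B * x)) ^ k ≤ (1 + δ) * (Real.log x) ^ k := by
    have h1 : Tendsto (fun x : ℕ => ((Real.log B + Real.log x) / Real.log x) ^ k) atTop (𝓝 (1 ^ k)) := by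
      apply Tendsto.pow
      have h2 : Tendsto (fun x : ℕ => Real.log B / Real.log x + 1) atTop (𝓝 (0 + 1)) :=
        (tlog.const_div_atTop (Real.log B)).add tendsto_const_nhds
      rw [zero_add] at h2
      refine h2.congr' ?_
      filter_upwards [eventually_gt_atTop 1] with x hx
      have hx1 : (1 : ℝ) < x := by exact_mod_cast hx
      have hl : 0 < Real.log x := Real.log_pos hx1
      field_simp
    rw [one_pow] at h1
    filter_upwards [h1.eventually_le_const (show (1 : ℝ) < 1 + δ by linarith), eventually_gt_atTop 1] with x hx hx'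
    have hx1 : (1 : ℝ) < x := by exact_mod_cast hx'
    have hl : 0 < Real.log x := Real.log_pos hx1
    rw [Real.log_mul (by linarith) (by linarith)]
    rw [div_pow, div_le_iff₀ (by positivity)] at hx
    exact hx
  have e4 : ∀ᶠ x : ℕ in atTop, 1 / δ ≤ (x : ℝ) ^ (η / 2) :=
    ((tendsto_rpow_atTop (by positivity)).comp tendsto_natCast_atTop_atTop).eventually_ge_atTop _
  filter_upwards [hω k (C + 1) δ (η / 4) hδ0 (by positivity), T_small T hTs K D 2 (by omega) (η / 2) (by positivity),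
    log_small (1 / δ) k (η / 4) (by positivity), e1, e2, e3, e4, eventually_ge_atTop n₀, eventually_ge_atTop N₀,
    eventually_ge_atTop 3] with x g1 g2 g3 g4 g5 g6 g7 g8 g9 g10 J1 J2 hJ1 hJ2 hJ hval
  have hx3 : (3 : ℝ) ≤ x := by exact_mod_cast g10
  have hx0 : (0 : ℝ) < x := by linarith
  have hx1 : (1 : ℝ) ≤ x := by linarith
  have hxη : 1 ≤ (x : ℝ) ^ η := Real.one_le_rpow hx1 hη.le
  have hpos : ∀ n ∈ Finset.Ioc J1 J2, ∀ f ∈ F, 0 < val f n := by
    intro n hn f hf'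
    have h1 := (hval n hn f hf').1
    have h2 : (0 : ℝ) < val f n := by linarith
    exact_mod_cast h2
  have hvalB : ∀ n ∈ Finset.Ioc J1 J2, ∀ f ∈ F, (x : ℝ) ≤ val f n ∧ (val f n : ℝ) ≤ B * x := fun n hn f hf =>
    ⟨(hval n hn f hf).1, (hval n hn f hf).2.trans (mul_le_mul_of_nonneg_right hAB hx0.le)⟩
  set H := (J2 : ℝ) - J1 with hH
  have hH0 : 0 ≤ H := by linarith
  have hHη : (x : ℝ) ^ η ≤ H := by linarith
  have hJle : J1 ≤ J2 := by
    have : (J1 : ℝ) ≤ J2 := by linarith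
    exact_mod_cast this
  have hcardH : (((Finset.Ioc J1 J2).card : ℕ) : ℝ) = H := by
    rw [Int.card_Ioc]
    have : (((J2 - J1).toNat : ℕ) : ℤ) = J2 - J1 := Int.toNat_of_nonneg (by omega)
    have h3 : ((((J2 - J1).toNat : ℕ) : ℤ) : ℝ) = ((J2 - J1 : ℤ) : ℝ) := by rw [this]
    push_cast at h3
    exact h3
  set S := ∑ n ∈ Finset.Ioc J1 J2, Sg F (fun f => T (val f n).toNat) with hS
  set P := ∑ n ∈ Finset.Ioc J1 J2, ∏ f ∈ F, fT T (val f n).toNat with hP'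
  set M := ∑ n ∈ Finset.Ioc J1 J2, ∏ f ∈ F, μ.real (E (val f n).toNat) with hM
  have hS0 : 0 ≤ S := sum_nonneg fun _ _ => Sg_nonneg _ _
  have hP0 : 0 ≤ P := sum_nonneg fun _ _ => prod_nonneg fun _ _ => fT_nonneg _ _
  have hS1 : |S - c * H| ≤ δ * H := by
    have h1 : S - c * H = ∑ n ∈ Finset.Ioc J1 J2, (Sg F (fun f => T (val f n).toNat) - c) := by
      rw [sum_sub_distrib, sum_const, nsmul_eq_mul, hcardH, hS]
      ring
    rw [h1]
    refine (abs_sum_le_sum_abs _ _).trans ?_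
    calc ∑ n ∈ Finset.Ioc J1 J2, |Sg F (fun f => T (val f n).toNat) - c| ≤ ∑ n ∈ Finset.Ioc J1 J2, δ := by
          apply sum_le_sum
          intro n hn
          apply ht₀
          intro f hf
          apply hN₀
          have h2 := (hval n hn f hf).1
          have h3 : (x : ℤ) ≤ val f n := by exact_mod_cast h2
          omega
      _ = δ * H := by rw [sum_const, nsmul_eq_mul, hcardH]; ring
  have hval2 : ∀ n ∈ Finset.Ioc J1 J2, ∀ f ∈ F, (val f n).toNat ≤ x ^ 2 := by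
    intro n hn f hf
    apply toNat_le
    refine (hvalB n hn f hf).2.trans ?_
    push_cast
    nlinarith
  have hPS : |P - S| ≤ δ * S + δ * H := by
    have h1 := hpce T hT F J1 J2 (T (x ^ 2)) hk.ge hcop hJle
      (fun n hn f hf => ⟨hpos n hn f hf, hT (hval2 n hn f hf)⟩)
    refine h1.trans (add_le_add (mul_le_mul_of_nonneg_right hb₀ hS0) ?_)
    refine g2.trans ?_
    rw [div_le_iff₀ hδ0] at g7
    calc (x : ℝ) ^ (η / 2) = (x : ℝ) ^ (η / 2) * 1 := (mul_one _).symm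
      _ ≤ (x : ℝ) ^ (η / 2) * ((x : ℝ) ^ (η / 2) * δ) := mul_le_mul_of_nonneg_left g7 (by positivity)
      _ = δ * (x : ℝ) ^ (η / 2 + η / 2) := by
          rw [Real.rpow_add hx0]
          ring
      _ = δ * (x : ℝ) ^ η := by rw [add_halves]
      _ ≤ δ * H := mul_le_mul_of_nonneg_left hHη hδ0.le
  have hlogx : 0 < Real.log x := Real.log_pos (by linarith)
  have hLk : 0 < (Real.log x) ^ k := by positivity
  obtain ⟨mm1, mm2⟩ := mean_two hn₀ hlaw F (Finset.Ioc J1 J2) (x : ℝ) (B * x) (by exact_mod_cast g8)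
    (fun n hn f hf => hvalB n hn f hf)
  rw [← hP', ← hM, ← hk] at mm1 mm2
  have h3 : M * (Real.log x) ^ k ≤ P := by rwa [le_div_iff₀ hLk] at mm2
  have hM0 : 0 ≤ M := sum_nonneg fun _ _ => prod_nonneg fun _ _ => measureReal_nonneg
  have h4 : P ≤ (1 + δ) * (M * (Real.log x) ^ k) := by
    have h5 : Real.log x ≤ Real.log (B * x) := Real.log_le_log hx0 (by nlinarith)
    have h6 : 0 < (Real.log (B * x)) ^ k := pow_pos (by linarith) k
    rw [div_le_iff₀ h6] at mm1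
    calc P ≤ M * (Real.log (B * x)) ^ k := mm1
      _ ≤ M * ((1 + δ) * (Real.log x) ^ k) := mul_le_mul_of_nonneg_left g6 hM0
      _ = _ := by ring
  have hu := g1 F J1 J2 hk.ge (fun f hf => ⟨hne f hf, (g4 f hf).1, (g4 f hf).2⟩)
    (hJ1.trans (pow_le_pow_right₀ (by exact_mod_cast (by omega : 1 ≤ x)) (by omega)))
    (hJ2.trans (pow_le_pow_right₀ (by exact_mod_cast (by omega : 1 ≤ x)) (by omega))) hpos
  rw [← hM] at hu
  have hcnt := cnt_eq {m | ω ∈ E m} F J1 J2 hpos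
  simp only [Set.mem_ofPred_eq] at hcnt
  rw [← hcnt] at hu
  rw [← hk]
  refine errs hδ0 hδ1 hH0 hLk hS0 hP0 hδd hS1 hPS h3 h4 ?_
  have h5 : |(cnt {m | ω ∈ E m} F J1 J2 : ℝ) - M| * (Real.log x) ^ k ≤
      (δ * M + (x : ℝ) ^ (η / 4)) * (Real.log x) ^ k := mul_le_mul_of_nonneg_right hu hLk.le
  refine h5.trans ?_
  have h6 : (Real.log x) ^ k ≤ δ * (x : ℝ) ^ (η / 4) := by
    rw [one_div_mul_eq_div, div_le_iff₀ hδ0] at g3
    linarith
  have h7 : (x : ℝ) ^ (η / 4) * (Real.log x) ^ k ≤ δ * H := by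
    calc (x : ℝ) ^ (η / 4) * (Real.log x) ^ k ≤ (x : ℝ) ^ (η / 4) * (δ * (x : ℝ) ^ (η / 4)) :=
          mul_le_mul_of_nonneg_left h6 (by positivity)
      _ = δ * (x : ℝ) ^ (η / 4 + η / 4) := by
          rw [Real.rpow_add hx0]
          ring
      _ ≤ δ * (x : ℝ) ^ η := by
          apply mul_le_mul_of_nonneg_left _ hδ0.le
          exact Real.rpow_le_rpow_of_exponent_le hx1 (by linarith)
      _ ≤ δ * H := mul_le_mul_of_nonneg_left hHη hδ0.le
  calc (δ * M + (x : ℝ) ^ (η / 4)) * (Real.log x) ^ k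
      = δ * (M * (Real.log x) ^ k) + (x : ℝ) ^ (η / 4) * (Real.log x) ^ k := by ring
    _ ≤ _ := by linarith

end Pool.Agent.U485.SM
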