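import Pool.Agent.U485.SM.Law
import Pool.Agent.U618.HT.FIX

set_option autoImplicit false

/-!
# Pairs with a fixed sum
-/

open Finset MeasureTheory ProbabilityTheory Filter Topology

namespace Pool.Agent.U485.SM

/-- the two forms `k` and `M - k` -/
def FM (M : ℕ) : Finset (ℤ × ℤ) := {(1, 0), (-1, (M : ℤ))}

theorem FM_card (M : ℕ) : (FM M).card = 2 := by
  unfold FM
  rw [Finset.card_pair]
  intro h
  have := congrArg Prod.fst h
  norm_num at this

/-- the number of the `k` in `(a, a + h]` with `k` and `M - k` in `Q` -/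
noncomputable def prs (Q : Set ℕ) (M a h : ℕ) : ℕ := {k : ℕ | a < k ∧ k ≤ a + h ∧ k ∈ Q ∧ M - k ∈ Q}.ncard

theorem cnt_FM (Q : Set ℕ) (M a h : ℕ) (h1 : a + h < M) : cnt Q (FM M) a (a + h : ℕ) = prs Q M a h := by
  unfold cnt prs
  have : {n : ℤ | (a : ℤ) < n ∧ n ≤ ((a + h : ℕ) : ℤ) ∧ ∀ f ∈ FM M, 0 < val f n ∧ (val f n).toNat ∈ Q} =
      (fun k : ℕ => (k : ℤ)) '' {k : ℕ | a < k ∧ k ≤ a + h ∧ k ∈ Q ∧ M - k ∈ Q} := by
    ext n
    simp only [Set.mem_ofPred_eq, Set.mem_image]
    constructor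
    · rintro ⟨h2, h3, h4⟩
      have h5 := h4 (1, 0) (by simp [FM])
      have h6 := h4 (-1, (M : ℤ)) (by simp [FM])
      simp only [val, one_mul, add_zero] at h5 h6
      refine ⟨n.toNat, ⟨by omega, by omega, h5.2, ?_⟩, by omega⟩
      have : M - n.toNat = (-1 * n + (M : ℤ)).toNat := by omega
      rw [this]
      exact h6.2
    · rintro ⟨k, ⟨h2, h3, h4, h5⟩, rfl⟩
      refine ⟨by exact_mod_cast h2, by exact_mod_cast h3, fun f hf => ?_⟩
      simp only [FM, Finset.mem_insert, Finset.mem_singleton] at hf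
      rcases hf with rfl | rfl
      · simp only [val, one_mul, add_zero, Int.toNat_natCast]
        exact ⟨by omega, h4⟩
      · simp only [val]
        have : (-1 * (k : ℤ) + (M : ℤ)).toNat = M - k := by omega
        rw [this]
        exact ⟨by omega, h5⟩
  rw [this]
  exact Set.ncard_image_of_injective _ (fun a b h => by exact_mod_cast h)

/-- the sum of the truncated singular series over the window -/
noncomputable def SgP (T : ℕ → ℕ) (M a h : ℕ) : ℝ :=
  ∑ k ∈ Finset.Ioc a (a + h), Sg (FM M) (fun f => if f = (1, 0) then T k else T (M - k))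

theorem Sg_congr (F : Finset (ℤ × ℤ)) (s t : ℤ × ℤ → ℕ) (h : ∀ f ∈ F, s f = t f) : Sg F s = Sg F t := by
  have h1 : F.sup s = F.sup t := Finset.sup_congr rfl h
  have h2 : ∀ p, Om F s p = Om F t p := by
    intro p
    unfold Om
    apply Finset.filter_congr
    intro r _
    constructor
    · rintro ⟨f, hf, h3⟩
      exact ⟨f, hf, by rw [← h f hf]; exact h3.1, h3.2⟩
    · rintro ⟨f, hf, h3⟩
      exact ⟨f, hf, by rw [h f hf]; exact h3.1, h3.2⟩
  have h3 : ∏ f ∈ F, W (s f) = ∏ f ∈ F, W (t f) := Finset.prod_congr rfl fun f hf => by rw [h f hf]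
  unfold Sg
  rw [h1, h3]
  congr 1
  exact Finset.prod_congr rfl fun p _ => by rw [h2 p]

theorem sum_FM (T : ℕ → ℕ) (M a h : ℕ) (h1 : a + h < M) :
    ∑ n ∈ Finset.Ioc (a : ℤ) ((a + h : ℕ) : ℤ), Sg (FM M) (fun f => T (val f n).toNat) = SgP T M a h := by
  unfold SgP
  symm
  apply Finset.sum_bij (fun (k : ℕ) _ => (k : ℤ))
  · intro k hk
    simp only [Finset.mem_Ioc] at hk ⊢
    omega
  · intro k _ l _ hkl
    exact_mod_cast hkl
  · intro n hn
    simp only [Finset.mem_Ioc] at hn
    exact ⟨n.toNat, by simp only [Finset.mem_Ioc]; omega, by omega⟩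
  · intro k hk
    simp only [Finset.mem_Ioc] at hk
    apply Sg_congr
    intro f hf
    simp only [FM, Finset.mem_insert, Finset.mem_singleton] at hf
    rcases hf with rfl | rfl
    · simp only [val, one_mul, add_zero, Int.toNat_natCast, if_true]
    · rw [if_neg (by intro h; have := congrArg Prod.fst h; norm_num at this)]
      simp only [val]
      congr 1
      omega

/-- **Pairs with a fixed sum in short windows.** -/
theorem pairs {Ω : Type} [m1 : MeasurableSpace Ω]
    {μ : Measure Ω} [hμ : IsProbabilityMeasure μ] {T : ℕ → ℕ} (hT : Monotone T)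
    (hTs : ∀ ε : ℝ, 0 < ε → ∀ᶠ n : ℕ in atTop, (T n : ℝ) ≤ (n : ℝ) ^ ε)
    {E : ℕ → Set Ω} (hE : Model μ T E) :
    ∀ᵐ ω ∂μ, ∀ (A : ℕ) (d η : ℝ), 0 < d → 0 < η → ∀ᶠ x : ℕ in atTop, ∀ M a h : ℕ,
      x ≤ a → a + h + x ≤ M → M ≤ A * x → (x : ℝ) ^ η ≤ h →
        |(prs {m | ω ∈ E m} M a h : ℝ) * (Real.log x) ^ 2 - SgP T M a h| ≤ d * (SgP T M a h + h) := by
  filter_upwards [unif hT hTs hE] with ω hω A d η hd hη
  filter_upwards [hω 2 2 (A : ℝ) d η hd hη, eventually_ge_atTop (A + 2)] with x hx hxA M a h h1 h2 h3 h4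
  have hx1 : 2 ≤ x := by omega
  have hMx : M ≤ x ^ 2 := by nlinarith
  have hah : a + h < M := by omega
  have key := hx (FM M) (a : ℤ) ((a + h : ℕ) : ℤ) (FM_card M) ?_ ?_ ?_ ?_ ?_
  · rw [cnt_FM _ _ _ _ hah, sum_FM T M a h hah] at key
    push_cast at key
    have e : (a : ℝ) + h - a = h := by ring
    rw [e] at key
    exact key
  · intro f hf
    simp only [FM, Finset.mem_insert, Finset.mem_singleton] at hf
    have hx2 : (1 : ℤ) ≤ (x : ℤ) ^ 2 := by
      have : 1 ≤ x ^ 2 := Nat.one_le_pow _ _ (by omega)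
      exact_mod_cast this
    rcases hf with rfl | rfl
    · refine ⟨one_ne_zero, by simpa using hx2, by simp only [abs_zero]; positivity, ?_⟩
      exact isCoprime_one_left
    · refine ⟨by norm_num, by simpa using hx2, ?_, ?_⟩
      · show |(M : ℤ)| ≤ (x : ℤ) ^ 2
        rw [abs_of_nonneg (by positivity)]
        exact_mod_cast hMx
      · show IsCoprime (-1 : ℤ) (M : ℤ)
        exact isCoprime_one_left.neg_left
  · rw [abs_of_nonneg (by positivity)]
    have : a ≤ x ^ 2 := by omega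
    exact_mod_cast this
  · rw [abs_of_nonneg (by positivity)]
    have : a + h ≤ x ^ 2 := by omega
    exact_mod_cast this
  · push_cast
    linarith
  · intro n hn f hf
    simp only [Finset.mem_Ioc] at hn
    push_cast at hn
    simp only [FM, Finset.mem_insert, Finset.mem_singleton] at hf
    have hMA : (M : ℤ) ≤ A * x := by exact_mod_cast h3
    have ha : (x : ℤ) ≤ a := by exact_mod_cast h1
    have hb : (a : ℤ) + h + x ≤ M := by exact_mod_cast h2
    rcases hf with rfl | rfl
    · simp only [val, one_mul, add_zero]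
      have e1 : (x : ℤ) ≤ n := by omega
      have e2 : n ≤ (A : ℤ) * x := by omega
      exact ⟨by exact_mod_cast e1, by exact_mod_cast e2⟩
    · simp only [val]
      have e1 : (x : ℤ) ≤ -1 * n + (M : ℤ) := by omega
      have e2 : -1 * n + (M : ℤ) ≤ (A : ℤ) * x := by omega
      exact ⟨by exact_mod_cast e1, by exact_mod_cast e2⟩

/-- the truncated singular series is at least `2 C₂` -/
theorem SgP_ge {C : ℝ} (hC : Tendsto K2 atTop (𝓝 C)) {T : ℕ → ℕ} {x M a h : ℕ} (hx : ∀ n, x ≤ n → 2 ≤ T n)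
    (hM : Even M) (h1 : x ≤ a) (h2 : a + h + x ≤ M) : 2 * C * h ≤ SgP T M a h := by
  unfold SgP
  have : ∀ k ∈ Finset.Ioc a (a + h), 2 * C ≤ Sg (FM M) (fun f => if f = (1, 0) then T k else T (M - k)) := by
    intro k hk
    simp only [Finset.mem_Ioc] at hk
    apply Pool.Agent.U618.HT.t_FIX C hC 0 (M : ℤ)
    · rw [zero_add]
      exact_mod_cast hM
    · simp only [if_true]
      exact hx k (by omega)
    · rw [if_neg (by intro h; have := congrArg Prod.fst h; norm_num at this)]
      exact hx _ (by omega)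
  calc 2 * C * h = ∑ k ∈ Finset.Ioc a (a + h), 2 * C := by
        rw [Finset.sum_const, Nat.card_Ioc]
        simp [nsmul_eq_mul]
        ring
    _ ≤ _ := Finset.sum_le_sum this

end Pool.Agent.U485.SM
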