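import Pool.Agent.U485.SM.Asm3

set_option autoImplicit false

/-!
# Second list of packages (project HT): consequences for the problems

`Q` is any set of natural numbers which satisfies the laws (almost surely the random set does).
-/

open Finset MeasureTheory ProbabilityTheory Filter Topology

namespace Pool.Agent.U485.SM

/-- the number of residue classes modulo `p` met by `H` -/
def res (H : Finset ℕ) (p : ℕ) : ℕ := (H.image (fun h => h % p)).card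

/-- the partial products of the singular series of the shifts `H` -/
noncomputable def PP (H : Finset ℕ) (y : ℕ) : ℝ :=
  ∏ p ∈ Pr y, ((1 - (res H p : ℝ) / p) * (1 - 1 / (p : ℝ))⁻¹ ^ H.card)

/-- the number of the `n` in `(a, b]` with `n + H` contained in `Q` -/
noncomputable def num (Q : Set ℕ) (H : Finset ℕ) (a b : ℕ) : ℕ := {n : ℕ | a < n ∧ n ≤ b ∧ ∀ h ∈ H, n + h ∈ Q}.ncard

/-- the law for all fixed systems of linear forms -/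
def LawF (Q : Set ℕ) : Prop := ∀ F : Finset (ℤ × ℤ), (∀ f ∈ F, IsCoprime f.1 f.2) → (∀ f ∈ F, f.1 ≠ 0) →
  (∀ f ∈ F, ∀ g ∈ F, f ≠ g → f.1 * g.2 ≠ g.1 * f.2) → ∀ c : ℝ,
  Tendsto (fun y : ℕ => ∏ p ∈ Pr y, ((1 - (nu F p : ℝ) / p) * (1 - 1 / (p : ℝ))⁻¹ ^ F.card)) atTop (𝓝 c) →
  ∀ (C : ℕ) (A d η : ℝ), 0 < d → 0 < η → ∀ᶠ x : ℕ in atTop, ∀ J1 J2 : ℤ,
    |J1| ≤ (x : ℤ) ^ C → |J2| ≤ (x : ℤ) ^ C → (J1 : ℝ) + (x : ℝ) ^ η ≤ J2 →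
    (∀ n ∈ Finset.Ioc J1 J2, ∀ f ∈ F, (x : ℝ) ≤ val f n ∧ (val f n : ℝ) ≤ A * x) →
    |(cnt Q F J1 J2 : ℝ) * (Real.log x) ^ F.card - c * ((J2 : ℝ) - J1)| ≤ d * ((J2 : ℝ) - J1)

/-- the law for shifts, in all windows `(x, x + h]` with `x ^ η ≤ h ≤ x` -/
def LawH (Q : Set ℕ) : Prop := ∀ (H : Finset ℕ) (c : ℝ), Tendsto (PP H) atTop (𝓝 c) → ∀ d η : ℝ, 0 < d → 0 < η →
  ∀ᶠ x : ℕ in atTop, ∀ h : ℕ, (x : ℝ) ^ η ≤ h → h ≤ x →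
    |(num Q H x (x + h) : ℝ) * (Real.log x) ^ H.card - c * h| ≤ d * h

/-- WIN. -/
def S_WIN : Prop := ∀ Q : Set ℕ, LawF Q → LawH Q

/-- FUL. The law on `(0, x]`. -/
def S_FUL : Prop := ∀ (Q : Set ℕ) (H : Finset ℕ) (c : ℝ),
  (∀ d : ℝ, 0 < d → ∀ᶠ x : ℕ in atTop, ∀ h : ℕ, (x : ℝ) ^ (1 / 2 : ℝ) ≤ h → h ≤ x →
    |(num Q H x (x + h) : ℝ) * (Real.log x) ^ H.card - c * h| ≤ d * h) →
  Tendsto (fun x : ℕ => (num Q H 0 x : ℝ) * (Real.log x) ^ H.card / x) atTop (𝓝 c)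

/-- PWR. Between consecutive `e`-th powers. -/
def S_PWR : Prop := ∀ Q : Set ℕ, LawH Q → ∀ (H : Finset ℕ) (c : ℝ), Tendsto (PP H) atTop (𝓝 c) → ∀ e m : ℕ, 2 ≤ e →
  Tendsto (fun n : ℕ => ({p : ℕ | n ^ e < p ∧ p + m < (n + 1) ^ e ∧ ∀ h ∈ H, p + h ∈ Q}.ncard : ℝ) *
    (Real.log n) ^ H.card / (n : ℝ) ^ (e - 1)) atTop (𝓝 (c * e / (e : ℝ) ^ H.card))

/-- the partial products of the twin prime constant and its analogues -/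
noncomputable def K2 (y : ℕ) : ℝ := ∏ p ∈ (Finset.Icc 3 y).filter Nat.Prime, (1 - 1 / ((p : ℝ) - 1) ^ 2)
noncomputable def K3 (y : ℕ) : ℝ := ∏ p ∈ (Finset.Icc 5 y).filter Nat.Prime, ((p : ℝ) ^ 2 * (p - 3) / (p - 1) ^ 3)
noncomputable def K4 (y : ℕ) : ℝ := ∏ p ∈ (Finset.Icc 5 y).filter Nat.Prime, ((p : ℝ) ^ 3 * (p - 4) / (p - 1) ^ 4)

/-- CO2. -/
def S_CO2 : Prop := ∃ C : ℝ, 0 < C ∧ Tendsto K2 atTop (𝓝 C) ∧ ∀ d : ℕ, Even d → 0 < d →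
  Tendsto (PP {0, d}) atTop (𝓝 (2 * C * ∏ p ∈ d.primeFactors.filter (fun p => 2 < p), (((p : ℝ) - 1) / (p - 2))))

/-- CO3. -/
def S_CO3 : Prop := ∃ C : ℝ, 0 < C ∧ Tendsto K3 atTop (𝓝 C) ∧ Tendsto (PP {0, 2, 6}) atTop (𝓝 (9 / 2 * C)) ∧
  Tendsto (PP {0, 4, 6}) atTop (𝓝 (9 / 2 * C))

/-- CO4. -/
def S_CO4 : Prop := ∃ C : ℝ, 0 < C ∧ Tendsto K4 atTop (𝓝 C) ∧ Tendsto (PP {0, 2, 6, 8}) atTop (𝓝 (27 / 2 * C))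

/-- SIN. Admissible shifts have a positive singular series; if all classes modulo some prime are met it is zero. -/
def S_SIN : Prop := (∀ H : Finset ℕ, (∀ p : ℕ, p.Prime → res H p < p) → ∃ c : ℝ, 0 < c ∧ Tendsto (PP H) atTop (𝓝 c)) ∧
  ∀ H : Finset ℕ, (∃ p : ℕ, p.Prime ∧ res H p = p) → Tendsto (PP H) atTop (𝓝 0)

/-- SEX. Sexy primes (pairs of consecutive elements with difference 6) between consecutive cubes. -/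
def S_SEX : Prop := ∀ (Q : Set ℕ), LawH Q → ∀ C : ℝ, Tendsto K2 atTop (𝓝 C) →
  Tendsto (fun n : ℕ => ({p : ℕ | n ^ 3 < p ∧ p + 6 < (n + 1) ^ 3 ∧ p ∈ Q ∧ p + 6 ∈ Q ∧
    ∀ j : ℕ, 0 < j → j < 6 → p + j ∉ Q}.ncard : ℝ) * (Real.log n) ^ 2 / (n : ℝ) ^ 2) atTop (𝓝 (4 * C / 3))

/-- FIV. Five numbers `n, n + 2, …, n + 8` of which at least four belong to `Q`. -/
def S_FIV : Prop := ∀ (Q : Set ℕ), LawH Q → ∀ C : ℝ, Tendsto K4 atTop (𝓝 C) → ∀ d η : ℝ, 0 < d → 0 < η →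
  ∀ᶠ x : ℕ in atTop, ∀ h : ℕ, (x : ℝ) ^ η ≤ h → h ≤ x →
    |({n : ℕ | x < n ∧ n ≤ x + h ∧ 4 ≤ {j : ℕ | j < 5 ∧ n + 2 * j ∈ Q}.ncard}.ncard : ℝ) * (Real.log x) ^ 4 / h -
      27 / 2 * C| ≤ d

/-- TRP. The triplets of the problem MP_dddec0. -/
def S_TRP : Prop := ∀ (Q : Set ℕ), LawH Q → ∀ C : ℝ, Tendsto K3 atTop (𝓝 C) → ∀ d η : ℝ, 0 < d → 0 < η →
  ∀ᶠ x : ℕ in atTop, ∀ h : ℕ, (x : ℝ) ^ η ≤ h → h ≤ x →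
    |({n : ℕ | x < n ∧ n ≤ x + h ∧ n ∈ Q ∧ (n + 2 ∈ Q ∨ n + 4 ∈ Q) ∧ n + 6 ∈ Q}.ncard : ℝ) * (Real.log x) ^ 3 / h -
      9 * C| ≤ d

/-- DMR. The intervals `(n + 4, 2 ^ (n + 4))`. -/
def S_DMR : Prop := ∀ (Q : Set ℕ), LawH Q → ∀ C : ℝ, Tendsto K2 atTop (𝓝 C) →
  Tendsto (fun n : ℕ => ({p : ℕ | n + 4 < p ∧ p < 2 ^ (n + 4) ∧ p ∈ Q ∧ p + 2 ∈ Q}.ncard : ℝ) * (n : ℝ) ^ 2 / 2 ^ (n + 4))
    atTop (𝓝 (2 * C / (Real.log 2) ^ 2))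

/-- FIX. Pairs with a fixed sum: lower bound of the truncated singular series. -/
def S_FIX : Prop := ∀ C : ℝ, Tendsto K2 atTop (𝓝 C) → ∀ (a b : ℤ) (t : ℤ × ℤ → ℕ), Even (a + b) →
  2 ≤ t (1, a) → 2 ≤ t (-1, b) → 2 * C ≤ Sg {(1, a), (-1, b)} t

end Pool.Agent.U485.SM
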