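import Pool.Agent.U485.SM.Main
import Pool.Agent.U485.SM.Stm2

set_option autoImplicit false

/-!
# Almost surely the random set satisfies the laws
-/

open Finset MeasureTheory ProbabilityTheory Filter Topology

namespace Pool.Agent.U485.SM

/-- the law for all fixed systems of linear forms -/
theorem ae_LawF {Ω : Type} [m1 : MeasurableSpace Ω] {μ : Measure Ω} [hμ : IsProbabilityMeasure μ] {T : ℕ → ℕ}
    (hT : Monotone T) (hTs : ∀ ε : ℝ, 0 < ε → ∀ᶠ n : ℕ in atTop, (T n : ℝ) ≤ (n : ℝ) ^ ε)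
    (hTt : Tendsto T atTop atTop) {E : ℕ → Set Ω} (hE : Model μ T E) : ∀ᵐ ω ∂μ, LawF {m | ω ∈ E m} :=
  asym wbd uni pce lim hT hTs hTt hE

/-- the same for shifts -/
theorem ae_LawH (hW : S_WIN) {Ω : Type} [m1 : MeasurableSpace Ω] {μ : Measure Ω} [hμ : IsProbabilityMeasure μ]
    {T : ℕ → ℕ} (hT : Monotone T) (hTs : ∀ ε : ℝ, 0 < ε → ∀ᶠ n : ℕ in atTop, (T n : ℝ) ≤ (n : ℝ) ^ ε)
    (hTt : Tendsto T atTop atTop) {E : ℕ → Set Ω} (hE : Model μ T E) : ∀ᵐ ω ∂μ, LawH {m | ω ∈ E m} := by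
  filter_upwards [ae_LawF hT hTs hTt hE] with ω hω
  exact hW _ hω

end Pool.Agent.U485.SM
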