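import Pool.Agent.U485.SM.Asm3
import Pool.Agent.U891.HT.FLK
import Pool.Agent.U660.HT.CST
import Pool.Agent.U139.HT.PCE
import Pool.Agent.U803.HT.LOW
import Pool.Agent.U445.HT.LIM
import Pool.Agent.U373.HT.COL
import Pool.Agent.U668.HT.UNI
import Pool.Agent.U333.HT.WBD
import Pool.Agent.U741.HT.CHE

set_option autoImplicit false

/-!
# The main theorems of project HT

Packages: FLK (helper891), CST (helper660), PCE (helper139), LOW (helper803), LIM (helper445), COL (helper373),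
CHE (helper741), UNI (helper668), WBD (helper333); assembly helper485.
-/

open Finset MeasureTheory ProbabilityTheory Filter Topology

namespace Pool.Agent.U485.SM

theorem wbd : S_WBD := Pool.Agent.U333.HT.t_WBD
theorem uni : S_UNI := Pool.Agent.U668.HT.t_UNI (Pool.Agent.U741.HT.t_CHE Pool.Agent.U373.HT.COL.t_COL)
theorem pce : S_PCE := Pool.Agent.U139.HT.t_PCE (Pool.Agent.U660.HT.t_CST Pool.Agent.U891.HT.t_FLK)
theorem low : S_LOW := Pool.Agent.U803.HT.t_LOW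
theorem lim : S_LIM := Pool.Agent.U445.HT.LIM.t_LIM

/-- the arithmetic of the errors -/
theorem errs2 {N M P S H L δ : ℝ} (hδ0 : 0 < δ) (hδ1 : δ ≤ 1) (hL : 0 < L) (hS : 0 ≤ S) (hH : 0 ≤ H)
    (h2 : |P - S| ≤ δ * S + δ * H) (h3 : M * L ≤ P) (h4 : P ≤ (1 + δ) * (M * L))
    (h5 : |N - M| * L ≤ δ * (M * L) + δ * H) : |N * L - S| ≤ 5 * δ * (S + H) := by
  have e2 : P ≤ (1 + δ) * S + δ * H := by
    have := (abs_le.1 h2).2
    linarith
  have e5 : |M * L - P| ≤ δ * P := by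
    rw [abs_le]
    constructor
    · nlinarith
    · nlinarith
  have e6 : |N * L - M * L| ≤ δ * P + δ * H := by
    rw [← sub_mul, abs_mul, abs_of_pos hL]
    have : δ * (M * L) ≤ δ * P := mul_le_mul_of_nonneg_left h3 hδ0.le
    linarith
  have e7 : |N * L - S| ≤ |N * L - M * L| + |M * L - P| + |P - S| := by
    have a2 := abs_add_le (N * L - M * L + (M * L - P)) (P - S)
    have a3 := abs_add_le (N * L - M * L) (M * L - P)
    have a4 : N * L - M * L + (M * L - P) + (P - S) = N * L - S := by ring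
    rw [a4] at a2
    linarith
  have e8 : δ * P ≤ δ * (2 * S + H) := by
    apply mul_le_mul_of_nonneg_left _ hδ0.le
    nlinarith
  nlinarith

/-- **The uniform law.** -/
theorem unif {Ω : Type} [m1 : MeasurableSpace Ω]
    {μ : Measure Ω} [hμ : IsProbabilityMeasure μ] {T : ℕ → ℕ} (hT : Monotone T)
    (hTs : ∀ ε : ℝ, 0 < ε → ∀ᶠ n : ℕ in atTop, (T n : ℝ) ≤ (n : ℝ) ^ ε)
    {E : ℕ → Set Ω} (hE : Model μ T E) :
    ∀ᵐ ω ∂μ, ∀ (k C : ℕ) (A d η : ℝ), 0 < d → 0 < η → ∀ᶠ x : ℕ in atTop, ∀ (F : Finset (ℤ × ℤ)) (J1 J2 : ℤ),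
        F.card = k → (∀ f ∈ F, f.1 ≠ 0 ∧ |f.1| ≤ (x : ℤ) ^ C ∧ |f.2| ≤ (x : ℤ) ^ C ∧ IsCoprime f.1 f.2) →
        |J1| ≤ (x : ℤ) ^ C → |J2| ≤ (x : ℤ) ^ C → (J1 : ℝ) + (x : ℝ) ^ η ≤ J2 →
        (∀ n ∈ Finset.Ioc J1 J2, ∀ f ∈ F, (x : ℝ) ≤ val f n ∧ (val f n : ℝ) ≤ A * x) →
        |(cnt {m | ω ∈ E m} F J1 J2 : ℝ) * (Real.log x) ^ k -
            ∑ n ∈ Finset.Ioc J1 J2, Sg F (fun f => T (val f n).toNat)| ≤
          d * (∑ n ∈ Finset.Ioc J1 J2, Sg F (fun f => T (val f n).toNat) + ((J2 : ℝ) - J1)) := by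
  classical
  obtain ⟨n₀, hn₀, hlaw⟩ := law' wbd hE hTs
  filter_upwards [uni Ω m1 μ hμ E hE.meas hE.indep] with ω hω k C A d η hd hη
  obtain ⟨δ, hδ⟩ : ∃ δ, δ = min 1 (d / 5) := ⟨_, rfl⟩
  have hδ0 : 0 < δ := by rw [hδ]; exact lt_min one_pos (by positivity)
  have hδ1 : δ ≤ 1 := by rw [hδ]; exact min_le_left _ _
  have hδd : 5 * δ ≤ d := by
    have : δ ≤ d / 5 := by rw [hδ]; exact min_le_right _ _
    linarith
  obtain ⟨b₀, hb₀⟩ : ∃ b₀ : ℕ, (1 / 2 : ℝ) ^ b₀ ≤ δ := by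
    obtain ⟨b, hb⟩ := exists_pow_lt_of_lt_one hδ0 (show (1 / 2 : ℝ) < 1 by norm_num)
    exact ⟨b, hb.le⟩
  obtain ⟨K, D, hK, hpce⟩ := pce k b₀
  obtain ⟨B, hB⟩ : ∃ B, B = max A 1 := ⟨_, rfl⟩
  have hB1 : 1 ≤ B := by rw [hB]; exact le_max_right _ _
  have hAB : A ≤ B := by rw [hB]; exact le_max_left _ _
  have e2 : ∀ᶠ x : ℕ in atTop, B ≤ (x : ℝ) := tendsto_natCast_atTop_atTop.eventually_ge_atTop B
  have e3 : ∀ᶠ x : ℕ in atTop, (Real.log (B * x)) ^ k ≤ (1 + δ) * (Real.log x) ^ k := by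
    have h1 : Tendsto (fun x : ℕ => ((Real.log B + Real.log x) / Real.log x) ^ k) atTop (𝓝 (1 ^ k)) := by
      apply Tendsto.pow
      have h2 : Tendsto (fun x : ℕ => Real.log B / Real.log x + 1) atTop (𝓝 (0 + 1)) :=
        (tlog.const_div_atTop (Real.log B)).add tendsto_const_nhds
      rw [zero_add] at h2
      refine h2.congr' ?_
      filter_upwards [eventually_gt_atTop 1] with x hx
      have hx1 : (1 : ℝ) < x := by exact_mod_cast hx
      have hl : 0 < Real.log x := Real.log_pos hx1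
      field_simp
    rw [one_pow] at h1
    filter_upwards [h1.eventually_le_const (show (1 : ℝ) < 1 + δ by linarith), eventually_gt_atTop 1] with x hx hx'
    have hx1 : (1 : ℝ) < x := by exact_mod_cast hx'
    have hl : 0 < Real.log x := Real.log_pos hx1
    rw [Real.log_mul (by linarith) (by linarith)]
    rw [div_pow, div_le_iff₀ (by positivity)] at hx
    exact hx
  have e4 : ∀ᶠ x : ℕ in atTop, 1 / δ ≤ (x : ℝ) ^ (η / 2) :=
    ((tendsto_rpow_atTop (by positivity)).comp tendsto_natCast_atTop_atTop).eventually_ge_atTop _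
  filter_upwards [hω k C δ (η / 4) hδ0 (by positivity), T_small T hTs K D 2 (by omega) (η / 2) (by positivity),
    log_small (1 / δ) k (η / 4) (by positivity), e2, e3, e4, eventually_ge_atTop n₀,
    eventually_ge_atTop 3] with x g1 g2 g3 g5 g6 g7 g8 g10 F J1 J2 hk hf hJ1 hJ2 hJ hval
  have hx3 : (3 : ℝ) ≤ x := by exact_mod_cast g10
  have hx0 : (0 : ℝ) < x := by linarith
  have hx1 : (1 : ℝ) ≤ x := by linarith
  have hxη : 1 ≤ (x : ℝ) ^ η := Real.one_le_rpow hx1 hη.le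
  have hpos : ∀ n ∈ Finset.Ioc J1 J2, ∀ f ∈ F, 0 < val f n := by
    intro n hn f hf'
    have h1 := (hval n hn f hf').1
    have h2 : (0 : ℝ) < val f n := by linarith
    exact_mod_cast h2
  have hvalB : ∀ n ∈ Finset.Ioc J1 J2, ∀ f ∈ F, (x : ℝ) ≤ val f n ∧ (val f n : ℝ) ≤ B * x := fun n hn f hf =>
    ⟨(hval n hn f hf).1, (hval n hn f hf).2.trans (mul_le_mul_of_nonneg_right hAB hx0.le)⟩
  set H := (J2 : ℝ) - J1 with hH
  have hH0 : 0 ≤ H := by linarith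
  have hHη : (x : ℝ) ^ η ≤ H := by linarith
  have hJle : J1 ≤ J2 := by
    have : (J1 : ℝ) ≤ J2 := by linarith
    exact_mod_cast this
  set S := ∑ n ∈ Finset.Ioc J1 J2, Sg F (fun f => T (val f n).toNat) with hS
  set P := ∑ n ∈ Finset.Ioc J1 J2, ∏ f ∈ F, fT T (val f n).toNat with hP'
  set M := ∑ n ∈ Finset.Ioc J1 J2, ∏ f ∈ F, μ.real (E (val f n).toNat) with hM
  have hS0 : 0 ≤ S := sum_nonneg fun _ _ => Sg_nonneg _ _
  have hval2 : ∀ n ∈ Finset.Ioc J1 J2, ∀ f ∈ F, (val f n).toNat ≤ x ^ 2 := by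
    intro n hn f hf
    apply toNat_le
    refine (hvalB n hn f hf).2.trans ?_
    push_cast
    nlinarith
  have hPS : |P - S| ≤ δ * S + δ * H := by
    have h1 := hpce T hT F J1 J2 (T (x ^ 2)) hk.le (fun f hf' => (hf f hf').2.2.2) hJle
      (fun n hn f hf => ⟨hpos n hn f hf, hT (hval2 n hn f hf)⟩)
    refine h1.trans (add_le_add (mul_le_mul_of_nonneg_right hb₀ hS0) ?_)
    refine g2.trans ?_
    rw [div_le_iff₀ hδ0] at g7
    calc (x : ℝ) ^ (η / 2) = (x : ℝ) ^ (η / 2) * 1 := (mul_one _).symm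
      _ ≤ (x : ℝ) ^ (η / 2) * ((x : ℝ) ^ (η / 2) * δ) := mul_le_mul_of_nonneg_left g7 (by positivity)
      _ = δ * (x : ℝ) ^ (η / 2 + η / 2) := by
          rw [Real.rpow_add hx0]
          ring
      _ = δ * (x : ℝ) ^ η := by rw [add_halves]
      _ ≤ δ * H := mul_le_mul_of_nonneg_left hHη hδ0.le
  have hlogx : 0 < Real.log x := Real.log_pos (by linarith)
  have hLk : 0 < (Real.log x) ^ k := by positivity
  obtain ⟨mm1, mm2⟩ := mean_two hn₀ hlaw F (Finset.Ioc J1 J2) (x : ℝ) (B * x) (by exact_mod_cast g8)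
    (fun n hn f hf => hvalB n hn f hf)
  rw [← hP', ← hM, hk] at mm1 mm2
  have h3 : M * (Real.log x) ^ k ≤ P := by rwa [le_div_iff₀ hLk] at mm2
  have hM0 : 0 ≤ M := sum_nonneg fun _ _ => prod_nonneg fun _ _ => measureReal_nonneg
  have h4 : P ≤ (1 + δ) * (M * (Real.log x) ^ k) := by
    have h5 : Real.log x ≤ Real.log (B * x) := Real.log_le_log hx0 (by nlinarith)
    have h6 : 0 < (Real.log (B * x)) ^ k := pow_pos (by linarith) k
    rw [div_le_iff₀ h6] at mm1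
    calc P ≤ M * (Real.log (B * x)) ^ k := mm1
      _ ≤ M * ((1 + δ) * (Real.log x) ^ k) := mul_le_mul_of_nonneg_left g6 hM0
      _ = _ := by ring
  have hu := g1 F J1 J2 hk.le (fun f hf' => ⟨(hf f hf').1, (hf f hf').2.1, (hf f hf').2.2.1⟩) hJ1 hJ2 hpos
  rw [← hM] at hu
  have hcnt := cnt_eq {m | ω ∈ E m} F J1 J2 hpos
  simp only [Set.mem_ofPred_eq] at hcnt
  rw [← hcnt] at hu
  have h5 : |(cnt {m | ω ∈ E m} F J1 J2 : ℝ) - M| * (Real.log x) ^ k ≤
      (δ * M + (x : ℝ) ^ (η / 4)) * (Real.log x) ^ k := mul_le_mul_of_nonneg_right hu hLk.le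
  have h6 : (Real.log x) ^ k ≤ δ * (x : ℝ) ^ (η / 4) := by
    rw [one_div_mul_eq_div, div_le_iff₀ hδ0] at g3
    linarith
  have h7 : (x : ℝ) ^ (η / 4) * (Real.log x) ^ k ≤ δ * H := by
    calc (x : ℝ) ^ (η / 4) * (Real.log x) ^ k ≤ (x : ℝ) ^ (η / 4) * (δ * (x : ℝ) ^ (η / 4)) :=
          mul_le_mul_of_nonneg_left h6 (by positivity)
      _ = δ * (x : ℝ) ^ (η / 4 + η / 4) := by
          rw [Real.rpow_add hx0]
          ring
      _ ≤ δ * (x : ℝ) ^ η := by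
          apply mul_le_mul_of_nonneg_left _ hδ0.le
          exact Real.rpow_le_rpow_of_exponent_le hx1 (by linarith)
      _ ≤ δ * H := mul_le_mul_of_nonneg_left hHη hδ0.le
  have h8 : (δ * M + (x : ℝ) ^ (η / 4)) * (Real.log x) ^ k ≤ δ * (M * (Real.log x) ^ k) + δ * H := by
    calc (δ * M + (x : ℝ) ^ (η / 4)) * (Real.log x) ^ k
        = δ * (M * (Real.log x) ^ k) + (x : ℝ) ^ (η / 4) * (Real.log x) ^ k := by ring
      _ ≤ _ := by linarith
  refine (errs2 hδ0 hδ1 hLk hS0 hH0 hPS h3 h4 (h5.trans h8)).trans ?_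
  exact mul_le_mul_of_nonneg_right hδd (by linarith)

end Pool.Agent.U485.SM
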