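import Pool.Agent.U485.SM.All

set_option autoImplicit false

/-!
# The second shape of quadruples
-/

open Finset MeasureTheory ProbabilityTheory Filter Topology

namespace Pool.Agent.U485.SM

theorem res_big (H : Finset ℕ) (p : ℕ) (h : ∀ a ∈ H, a < p) : res H p = H.card := by
  unfold res
  rw [Finset.card_image_of_injOn]
  intro a ha b hb hab
  simp only [Nat.mod_eq_of_lt (h a ha), Nat.mod_eq_of_lt (h b hb)] at hab
  exact hab

theorem res_two (p : ℕ) (hp : p.Prime) (h5 : p ≠ 5) : res {0, 4, 6, 10} p = res {0, 2, 6, 8} p := by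
  by_cases h : p ≤ 10
  · have h1 : p = 2 ∨ p = 3 ∨ p = 7 := by
      have := hp.two_le
      interval_cases p <;> first | omega | (exfalso; revert hp; decide)
    rcases h1 with rfl | rfl | rfl <;> decide
  · push Not at h
    rw [res_big, res_big]
    · decide
    · intro a ha
      simp only [Finset.mem_insert, Finset.mem_singleton] at ha
      omega
    · intro a ha
      simp only [Finset.mem_insert, Finset.mem_singleton] at ha
      omega

theorem PP_two (y : ℕ) (hy : 5 ≤ y) : PP {0, 4, 6, 10} y = 2 * PP {0, 2, 6, 8} y := by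
  have c1 : ({0, 4, 6, 10} : Finset ℕ).card = 4 := by decide
  have c2 : ({0, 2, 6, 8} : Finset ℕ).card = 4 := by decide
  unfold PP
  rw [c1, c2]
  have h : ∀ p ∈ Pr y, (1 - (res {0, 4, 6, 10} p : ℝ) / p) * (1 - 1 / (p : ℝ))⁻¹ ^ 4 =
      (if p = 5 then (2 : ℝ) else 1) * ((1 - (res {0, 2, 6, 8} p : ℝ) / p) * (1 - 1 / (p : ℝ))⁻¹ ^ 4) := by
    intro p hp
    split_ifs with h5
    · subst h5
      have e1 : res {0, 4, 6, 10} 5 = 3 := by decide
      have e2 : res {0, 2, 6, 8} 5 = 4 := by decide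
      rw [e1, e2]
      norm_num
    · rw [one_mul, res_two p (mem_filter.1 hp).2 h5]
  rw [Finset.prod_congr rfl h, Finset.prod_mul_distrib, Finset.prod_ite_eq' (Pr y) 5 (fun _ => (2 : ℝ)), if_pos]
  unfold Pr
  exact mem_filter.2 ⟨mem_Icc.2 ⟨by norm_num, hy⟩, by norm_num⟩

theorem PP_two_lim {c : ℝ} (h : Tendsto (PP {0, 2, 6, 8}) atTop (𝓝 c)) :
    Tendsto (PP {0, 4, 6, 10}) atTop (𝓝 (2 * c)) := by
  refine (h.const_mul 2).congr' ?_
  filter_upwards [eventually_ge_atTop 5] with y hy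
  rw [PP_two y hy]

end Pool.Agent.U485.SM
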