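import Pool.Agent.U485.SM.Main

set_option autoImplicit false

/-!
# The uniform law for values of different orders of magnitude
-/

open Finset MeasureTheory ProbabilityTheory Filter Topology

namespace Pool.Agent.U485.SM

/-- the mean, two-sided, with a scale for every form -/
theorem mean_sc {Ω : Type} [MeasurableSpace Ω] {μ : Measure Ω} {T : ℕ → ℕ} {E : ℕ → Set Ω} {n₀ : ℕ}
    (hn₀ : 2 ≤ n₀) (hlaw : ∀ n, n₀ ≤ n → μ.real (E n) = fT T n / Real.log n)
    (F : Finset (ℤ × ℤ)) (V : Finset ℤ) (X Y : ℤ × ℤ → ℝ) (hx : ∀ f ∈ F, (n₀ : ℝ) ≤ X f)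
    (hval : ∀ n ∈ V, ∀ f ∈ F, X f ≤ val f n ∧ (val f n : ℝ) ≤ Y f) :
    ∑ n ∈ V, ∏ f ∈ F, fT T (val f n).toNat ≤
        (∑ n ∈ V, ∏ f ∈ F, μ.real (E (val f n).toNat)) * ∏ f ∈ F, Real.log (Y f) ∧
      (∑ n ∈ V, ∏ f ∈ F, μ.real (E (val f n).toNat)) * ∏ f ∈ F, Real.log (X f) ≤
        ∑ n ∈ V, ∏ f ∈ F, fT T (val f n).toNat := by
  have hn₀R : (2 : ℝ) ≤ n₀ := by exact_mod_cast hn₀
  have key : ∀ n ∈ V, ∀ f ∈ F, fT T (val f n).toNat ≤ μ.real (E (val f n).toNat) * Real.log (Y f) ∧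
      μ.real (E (val f n).toNat) * Real.log (X f) ≤ fT T (val f n).toNat := by
    intro n hn f hf
    obtain ⟨h1, h2⟩ := hval n hn f hf
    have hX := hx f hf
    have hlx : 0 < Real.log (X f) := Real.log_pos (by linarith)
    have h3 : (0 : ℝ) < val f n := by linarith
    have h4 : 0 < val f n := by exact_mod_cast h3
    have h5 : (((val f n).toNat : ℕ) : ℝ) = val f n := by
      have : (((val f n).toNat : ℕ) : ℤ) = val f n := Int.toNat_of_nonneg h4.le
      exact_mod_cast this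
    have h6 : n₀ ≤ (val f n).toNat := by
      have : (n₀ : ℝ) ≤ ((val f n).toNat : ℕ) := by rw [h5]; linarith
      exact_mod_cast this
    rw [hlaw _ h6, h5]
    have h7 : Real.log (X f) ≤ Real.log (val f n) := Real.log_le_log (by linarith) h1
    have h8 : Real.log (val f n) ≤ Real.log (Y f) := Real.log_le_log h3 h2
    have h9 := fT_nonneg T (val f n).toNat
    have h10 : 0 < Real.log (val f n) := by linarith
    constructor
    · rw [div_mul_eq_mul_div, le_div_iff₀ h10]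
      exact mul_le_mul_of_nonneg_left h8 h9
    · rw [div_mul_eq_mul_div, div_le_iff₀ h10]
      exact mul_le_mul_of_nonneg_left h7 h9
  constructor
  · rw [sum_mul]
    apply sum_le_sum
    intro n hn
    rw [← prod_mul_distrib]
    exact Finset.prod_le_prod (fun f hf => fT_nonneg _ _) fun f hf => (key n hn f hf).1
  · rw [sum_mul]
    apply sum_le_sum
    intro n hn
    rw [← prod_mul_distrib]
    refine Finset.prod_le_prod (fun f hf => ?_) fun f hf => (key n hn f hf).2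
    have hX := hx f hf
    have hlx : 0 < Real.log (X f) := Real.log_pos (by linarith)
    exact mul_nonneg measureReal_nonneg hlx.le

/-- **The uniform law with scales.** -/
theorem unif_sc {Ω : Type} [m1 : MeasurableSpace Ω]
    {μ : Measure Ω} [hμ : IsProbabilityMeasure μ] {T : ℕ → ℕ} (hT : Monotone T)
    (hTs : ∀ ε : ℝ, 0 < ε → ∀ᶠ n : ℕ in atTop, (T n : ℝ) ≤ (n : ℝ) ^ ε)
    {E : ℕ → Set Ω} (hE : Model μ T E) :
    ∀ᵐ ω ∂μ, ∀ (k C : ℕ) (A d η : ℝ), 1 ≤ C → 1 ≤ A → 0 < d → 0 < η → ∀ᶠ x : ℕ in atTop,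
      ∀ (F : Finset (ℤ × ℤ)) (J1 J2 : ℤ) (X : ℤ × ℤ → ℝ),
        F.card = k → (∀ f ∈ F, f.1 ≠ 0 ∧ |f.1| ≤ (x : ℤ) ^ C ∧ |f.2| ≤ (x : ℤ) ^ C ∧ IsCoprime f.1 f.2) →
        |J1| ≤ (x : ℤ) ^ C → |J2| ≤ (x : ℤ) ^ C → (J1 : ℝ) + (x : ℝ) ^ η ≤ J2 →
        (∀ f ∈ F, (x : ℝ) ^ η ≤ X f ∧ A * X f ≤ (x : ℝ) ^ C) →
        (∀ n ∈ Finset.Ioc J1 J2, ∀ f ∈ F, X f ≤ val f n ∧ (val f n : ℝ) ≤ A * X f) →
        |(cnt {m | ω ∈ E m} F J1 J2 : ℝ) * ∏ f ∈ F, Real.log (X f) -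
            ∑ n ∈ Finset.Ioc J1 J2, Sg F (fun f => T (val f n).toNat)| ≤
          d * (∑ n ∈ Finset.Ioc J1 J2, Sg F (fun f => T (val f n).toNat) + ((J2 : ℝ) - J1)) := by
  classical
  obtain ⟨n₀, hn₀, hlaw⟩ := law' wbd hE hTs
  filter_upwards [uni Ω m1 μ hμ E hE.meas hE.indep] with ω hω k C A d η hC hA hd hη
  obtain ⟨δ, hδ⟩ : ∃ δ, δ = min 1 (d / 5) := ⟨_, rfl⟩
  have hδ0 : 0 < δ := by rw [hδ]; exact lt_min one_pos (by positivity)
  have hδ1 : δ ≤ 1 := by rw [hδ]; exact min_le_left _ _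
  have hδd : 5 * δ ≤ d := by
    have : δ ≤ d / 5 := by rw [hδ]; exact min_le_right _ _
    linarith
  obtain ⟨b₀, hb₀⟩ : ∃ b₀ : ℕ, (1 / 2 : ℝ) ^ b₀ ≤ δ := by
    obtain ⟨b, hb⟩ := exists_pow_lt_of_lt_one hδ0 (show (1 / 2 : ℝ) < 1 by norm_num)
    exact ⟨b, hb.le⟩
  obtain ⟨K, D, hK, hpce⟩ := pce k b₀
  have hCR : (1 : ℝ) ≤ C := by exact_mod_cast hC
  have e2 : ∀ᶠ x : ℕ in atTop, (n₀ : ℝ) ≤ (x : ℝ) ^ η :=
    ((tendsto_rpow_atTop hη).comp tendsto_natCast_atTop_atTop).eventually_ge_atTop _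
  have e3 : ∀ᶠ x : ℕ in atTop, (1 + Real.log A / (η * Real.log x)) ^ k ≤ 1 + δ := by
    have h1 : Tendsto (fun x : ℕ => (1 + Real.log A / (η * Real.log x)) ^ k) atTop (𝓝 ((1 + 0) ^ k)) := by
      apply Tendsto.pow
      exact tendsto_const_nhds.add ((tlog.const_mul_atTop hη).const_div_atTop (Real.log A))
    rw [add_zero, one_pow] at h1
    exact h1.eventually_le_const (show (1 : ℝ) < 1 + δ by linarith)
  have e4 : ∀ᶠ x : ℕ in atTop, 1 / δ ≤ (x : ℝ) ^ (η / 2) :=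
    ((tendsto_rpow_atTop (by positivity)).comp tendsto_natCast_atTop_atTop).eventually_ge_atTop _
  filter_upwards [hω k C δ (η / 4) hδ0 (by positivity), T_small T hTs K D C hC (η / 2) (by positivity),
    log_small ((C : ℝ) ^ k / δ) k (η / 4) (by positivity), e2, e3, e4,
    eventually_ge_atTop 3] with x g1 g2 g3 g5 g6 g7 g10 F J1 J2 X hk hf hJ1 hJ2 hJ hX hval
  have hx3 : (3 : ℝ) ≤ x := by exact_mod_cast g10
  have hx0 : (0 : ℝ) < x := by linarith
  have hx1 : (1 : ℝ) ≤ x := by linarith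
  have hxη : 1 ≤ (x : ℝ) ^ η := Real.one_le_rpow hx1 hη.le
  have hn₀R : (2 : ℝ) ≤ n₀ := by exact_mod_cast hn₀
  have hpos : ∀ n ∈ Finset.Ioc J1 J2, ∀ f ∈ F, 0 < val f n := by
    intro n hn f hf'
    have h1 := (hval n hn f hf').1
    have h3 := (hX f hf').1
    have h2 : (0 : ℝ) < val f n := by linarith
    exact_mod_cast h2
  set H := (J2 : ℝ) - J1 with hH
  have hH0 : 0 ≤ H := by linarith
  have hHη : (x : ℝ) ^ η ≤ H := by linarith
  have hJle : J1 ≤ J2 := by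
    have : (J1 : ℝ) ≤ J2 := by linarith
    exact_mod_cast this
  set S := ∑ n ∈ Finset.Ioc J1 J2, Sg F (fun f => T (val f n).toNat) with hS
  set P := ∑ n ∈ Finset.Ioc J1 J2, ∏ f ∈ F, fT T (val f n).toNat with hP'
  set M := ∑ n ∈ Finset.Ioc J1 J2, ∏ f ∈ F, μ.real (E (val f n).toNat) with hM
  set L := ∏ f ∈ F, Real.log (X f) with hL'
  have hS0 : 0 ≤ S := sum_nonneg fun _ _ => Sg_nonneg _ _
  have hval2 : ∀ n ∈ Finset.Ioc J1 J2, ∀ f ∈ F, (val f n).toNat ≤ x ^ C := by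
    intro n hn f hf
    apply toNat_le
    refine (hval n hn f hf).2.trans ((hX f hf).2.trans ?_)
    push_cast
    exact le_rfl
  have hPS : |P - S| ≤ δ * S + δ * H := by
    have h1 := hpce T hT F J1 J2 (T (x ^ C)) hk.le (fun f hf' => (hf f hf').2.2.2) hJle
      (fun n hn f hf => ⟨hpos n hn f hf, hT (hval2 n hn f hf)⟩)
    refine h1.trans (add_le_add (mul_le_mul_of_nonneg_right hb₀ hS0) ?_)
    refine g2.trans ?_
    rw [div_le_iff₀ hδ0] at g7
    calc (x : ℝ) ^ (η / 2) = (x : ℝ) ^ (η / 2) * 1 := (mul_one _).symm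
      _ ≤ (x : ℝ) ^ (η / 2) * ((x : ℝ) ^ (η / 2) * δ) := mul_le_mul_of_nonneg_left g7 (by positivity)
      _ = δ * (x : ℝ) ^ (η / 2 + η / 2) := by
          rw [Real.rpow_add hx0]
          ring
      _ = δ * (x : ℝ) ^ η := by rw [add_halves]
      _ ≤ δ * H := mul_le_mul_of_nonneg_left hHη hδ0.le
  have hlogx : 0 < Real.log x := Real.log_pos (by linarith)
  have hXlow : ∀ f ∈ F, η * Real.log x ≤ Real.log (X f) := by
    intro f hf'
    rw [← Real.log_rpow hx0]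
    exact Real.log_le_log (by positivity) (hX f hf').1
  have hXpos : ∀ f ∈ F, 0 < X f := fun f hf' => lt_of_lt_of_le (by positivity) (hX f hf').1
  have hXup : ∀ f ∈ F, Real.log (X f) ≤ C * Real.log x := by
    intro f hf'
    have h1 : X f ≤ (x : ℝ) ^ C := by
      have h2 := (hX f hf').2
      have h3 := hXpos f hf'
      nlinarith
    have h2 := Real.log_le_log (hXpos f hf') h1
    rwa [Real.log_pow] at h2
  have hLpos : 0 < L := Finset.prod_pos fun f hf' => lt_of_lt_of_le (by positivity) (hXlow f hf')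
  have hLup : L ≤ (C * Real.log x) ^ k := by
    rw [← hk, ← Finset.prod_const]
    exact Finset.prod_le_prod (fun f hf' => (lt_of_lt_of_le (by positivity) (hXlow f hf')).le)
      (fun f hf' => hXup f hf')
  obtain ⟨mm1, mm2⟩ := mean_sc hn₀ hlaw F (Finset.Ioc J1 J2) X (fun f => A * X f)
    (fun f hf' => g5.trans (hX f hf').1) hval
  rw [← hP', ← hM] at mm1 mm2
  rw [← hL'] at mm2
  have hM0 : 0 ≤ M := sum_nonneg fun _ _ => prod_nonneg fun _ _ => measureReal_nonneg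
  have hLA : ∏ f ∈ F, Real.log (A * X f) ≤ (1 + δ) * L := by
    have h1 : ∏ f ∈ F, Real.log (A * X f) ≤ ∏ f ∈ F, ((1 + Real.log A / (η * Real.log x)) * Real.log (X f)) := by
      apply Finset.prod_le_prod
      · intro f hf'
        apply Real.log_nonneg
        have h3 := (hX f hf').1
        nlinarith
      · intro f hf'
        rw [Real.log_mul (by linarith) (hXpos f hf').ne']
        have h4 := hXlow f hf'
        have h5 : 0 ≤ Real.log A := Real.log_nonneg hA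
        have h6 : Real.log A ≤ Real.log A / (η * Real.log x) * Real.log (X f) := by
          rw [div_mul_eq_mul_div, le_div_iff₀ (by positivity)]
          exact mul_le_mul_of_nonneg_left h4 h5
        linarith
    refine h1.trans ?_
    rw [Finset.prod_mul_distrib, Finset.prod_const, hk]
    exact mul_le_mul_of_nonneg_right g6 hLpos.le
  have h4 : P ≤ (1 + δ) * (M * L) := by
    calc P ≤ M * ∏ f ∈ F, Real.log (A * X f) := mm1
      _ ≤ M * ((1 + δ) * L) := mul_le_mul_of_nonneg_left hLA hM0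
      _ = _ := by ring
  have hu := g1 F J1 J2 hk.le (fun f hf' => ⟨(hf f hf').1, (hf f hf').2.1, (hf f hf').2.2.1⟩) hJ1 hJ2 hpos
  rw [← hM] at hu
  have hcnt := cnt_eq {m | ω ∈ E m} F J1 J2 hpos
  simp only [Set.mem_ofPred_eq] at hcnt
  rw [← hcnt] at hu
  have h5 : |(cnt {m | ω ∈ E m} F J1 J2 : ℝ) - M| * L ≤
      (δ * M + (x : ℝ) ^ (η / 4)) * L := mul_le_mul_of_nonneg_right hu hLpos.le
  have h6 : L ≤ δ * (x : ℝ) ^ (η / 4) := by
    refine hLup.trans ?_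
    rw [mul_pow]
    rw [div_mul_eq_mul_div, div_le_iff₀ hδ0] at g3
    linarith
  have h7 : (x : ℝ) ^ (η / 4) * L ≤ δ * H := by
    calc (x : ℝ) ^ (η / 4) * L ≤ (x : ℝ) ^ (η / 4) * (δ * (x : ℝ) ^ (η / 4)) :=
          mul_le_mul_of_nonneg_left h6 (by positivity)
      _ = δ * (x : ℝ) ^ (η / 4 + η / 4) := by
          rw [Real.rpow_add hx0]
          ring
      _ ≤ δ * (x : ℝ) ^ η := by
          apply mul_le_mul_of_nonneg_left _ hδ0.le
          exact Real.rpow_le_rpow_of_exponent_le hx1 (by linarith)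
      _ ≤ δ * H := mul_le_mul_of_nonneg_left hHη hδ0.le
  have h8 : (δ * M + (x : ℝ) ^ (η / 4)) * L ≤ δ * (M * L) + δ * H := by
    calc (δ * M + (x : ℝ) ^ (η / 4)) * L = δ * (M * L) + (x : ℝ) ^ (η / 4) * L := by ring
      _ ≤ _ := by linarith
  refine (errs2 hδ0 hδ1 hLpos hS0 hH0 hPS mm2 h4 (h5.trans h8)).trans ?_
  exact mul_le_mul_of_nonneg_right hδd (by linarith)

end Pool.Agent.U485.SM
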