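import Pool.Agent.U485.SM.Scales
import Pool.Agent.U485.SM.Fix2

set_option autoImplicit false

/-!
# Goldbach pairs with a small summand in a short window
-/

open Finset MeasureTheory ProbabilityTheory Filter Topology

namespace Pool.Agent.U485.SM

/-- the conclusion of `unif_sc` for a set `Q` -/
def LawS (Q : Set ℕ) (T : ℕ → ℕ) : Prop := ∀ (k C : ℕ) (A d η : ℝ), 1 ≤ C → 1 ≤ A → 0 < d → 0 < η → ∀ᶠ x : ℕ in atTop,
      ∀ (F : Finset (ℤ × ℤ)) (J1 J2 : ℤ) (X : ℤ × ℤ → ℝ),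
        F.card = k → (∀ f ∈ F, f.1 ≠ 0 ∧ |f.1| ≤ (x : ℤ) ^ C ∧ |f.2| ≤ (x : ℤ) ^ C ∧ IsCoprime f.1 f.2) →
        |J1| ≤ (x : ℤ) ^ C → |J2| ≤ (x : ℤ) ^ C → (J1 : ℝ) + (x : ℝ) ^ η ≤ J2 →
        (∀ f ∈ F, (x : ℝ) ^ η ≤ X f ∧ A * X f ≤ (x : ℝ) ^ C) →
        (∀ n ∈ Finset.Ioc J1 J2, ∀ f ∈ F, X f ≤ val f n ∧ (val f n : ℝ) ≤ A * X f) →
        |(cnt Q F J1 J2 : ℝ) * ∏ f ∈ F, Real.log (X f) -
            ∑ n ∈ Finset.Ioc J1 J2, Sg F (fun f => T (val f n).toNat)| ≤
          d * (∑ n ∈ Finset.Ioc J1 J2, Sg F (fun f => T (val f n).toNat) + ((J2 : ℝ) - J1))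

theorem ae_LawS {Ω : Type} [m1 : MeasurableSpace Ω]
    {μ : Measure Ω} [hμ : IsProbabilityMeasure μ] {T : ℕ → ℕ} (hT : Monotone T)
    (hTs : ∀ ε : ℝ, 0 < ε → ∀ᶠ n : ℕ in atTop, (T n : ℝ) ≤ (n : ℝ) ^ ε)
    {E : ℕ → Set Ω} (hE : Model μ T E) : ∀ᵐ ω ∂μ, LawS {m | ω ∈ E m} T := unif_sc hT hTs hE

/-- **Small summands in short windows.** -/
theorem small {Q : Set ℕ} {T : ℕ → ℕ} (hT2 : ∀ᶠ n in atTop, 2 ≤ T n) {C : ℝ} (hC0 : 0 < C)
    (hC : Tendsto K2 atTop (𝓝 C)) (hQ : LawS Q T) : ∀ (A : ℕ) (δ η : ℝ), 2 ≤ A → 0 < δ → 0 < η →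
    ∀ᶠ N : ℕ in atTop, ∀ a h : ℕ, Even N → (N : ℝ) ^ η ≤ a → a + h ≤ A * a → 2 * (a + h) ≤ N →
      (N : ℝ) ^ η ≤ h → (2 * C - δ) * h ≤ (prs Q N a h : ℝ) * (Real.log a * Real.log N) := by
  intro A δ η hA hδ hη
  obtain ⟨n₀, hn₀⟩ := eventually_atTop.1 hT2
  obtain ⟨d, hd⟩ : ∃ d, d = min 1 (δ / (2 * C + 1)) := ⟨_, rfl⟩
  have hd0 : 0 < d := by rw [hd]; exact lt_min one_pos (by positivity)
  have hd1 : d ≤ 1 := by rw [hd]; exact min_le_left _ _
  have hd3 : d * (2 * C + 1) ≤ δ := by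
    have : d ≤ δ / (2 * C + 1) := by rw [hd]; exact min_le_right _ _
    rwa [le_div_iff₀ (by positivity)] at this
  have hAR : (2 : ℝ) ≤ A := by exact_mod_cast hA
  have e2 : ∀ᶠ N : ℕ in atTop, (n₀ : ℝ) ≤ (N : ℝ) ^ η :=
    ((tendsto_rpow_atTop hη).comp tendsto_natCast_atTop_atTop).eventually_ge_atTop _
  filter_upwards [hQ 2 2 A d η (by norm_num) (by linarith) hd0 hη, e2, eventually_ge_atTop (A + 2)]
    with N hN hn hNA a h hNe h1 h2 h3 h4
  have hN2 : 2 ≤ N := by omega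
  have hNR : (2 : ℝ) ≤ N := by exact_mod_cast hN2
  have hN1 : (1 : ℝ) ≤ (N : ℝ) ^ η := Real.one_le_rpow (by linarith) hη.le
  have haR : (1 : ℝ) ≤ a := hN1.trans h1
  have hhR : (0 : ℝ) < h := by linarith
  have ha1 : 1 ≤ a := by exact_mod_cast haR
  have hNN : N ≤ N ^ 2 := by nlinarith
  have hah : a + h < N := by omega
  have h3R : 2 * ((a : ℝ) + h) ≤ N := by exact_mod_cast h3
  have h2R : (a : ℝ) + h ≤ A * a := by exact_mod_cast h2
  have hne : ((-1 : ℤ), (N : ℤ)) ≠ (1, 0) := by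
    intro h
    have := congrArg Prod.fst h
    norm_num at this
  have key := hN (FM N) (a : ℤ) ((a + h : ℕ) : ℤ) (fun f => if f = (1, 0) then (a : ℝ) else (N : ℝ) / 2)
    (FM_card N) ?_ ?_ ?_ ?_ ?_ ?_
  · have hprod : ∏ f ∈ FM N, Real.log (if f = (1, 0) then (a : ℝ) else (N : ℝ) / 2) =
        Real.log a * Real.log ((N : ℝ) / 2) := by
      unfold FM
      rw [Finset.prod_pair (by exact hne.symm), if_pos rfl, if_neg hne]
    rw [cnt_FM _ _ _ _ hah, sum_FM T N a h hah, hprod] at key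
    push_cast at key
    have e : (a : ℝ) + h - a = h := by ring
    rw [e] at key
    have hs : 2 * C * h ≤ SgP T N a h := by
      refine SgP_ge hC (x := n₀) (T := T) hn₀ hNe ?_ ?_
      · exact_mod_cast hn.trans h1
      · have : n₀ ≤ a := by exact_mod_cast hn.trans h1
        omega
    have k1 := (abs_le.1 key).1
    have k2 : (2 * C - δ) * h ≤ (prs Q N a h : ℝ) * (Real.log a * Real.log ((N : ℝ) / 2)) := by
      nlinarith [mul_le_mul_of_nonneg_right hd3 hhR.le, mul_le_mul_of_nonneg_left hs (sub_nonneg.2 hd1)]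
    refine k2.trans ?_
    have k3 : Real.log ((N : ℝ) / 2) ≤ Real.log N := Real.log_le_log (by linarith) (by linarith)
    have k4 : 0 ≤ Real.log (a : ℝ) := Real.log_nonneg haR
    exact mul_le_mul_of_nonneg_left (mul_le_mul_of_nonneg_left k3 k4) (by positivity)
  · intro f hf
    simp only [FM, Finset.mem_insert, Finset.mem_singleton] at hf
    have hx2 : (1 : ℤ) ≤ (N : ℤ) ^ 2 := by
      have : 1 ≤ N ^ 2 := Nat.one_le_pow _ _ (by omega)
      exact_mod_cast this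
    rcases hf with rfl | rfl
    · exact ⟨one_ne_zero, by simpa using hx2, by simp only [abs_zero]; positivity, isCoprime_one_left⟩
    · refine ⟨by norm_num, by simpa using hx2, ?_, ?_⟩
      · show |(N : ℤ)| ≤ (N : ℤ) ^ 2
        rw [abs_of_nonneg (by positivity)]
        exact_mod_cast hNN
      · show IsCoprime (-1 : ℤ) (N : ℤ)
        exact isCoprime_one_left.neg_left
  · rw [abs_of_nonneg (by positivity)]
    have : a ≤ N ^ 2 := by omega
    exact_mod_cast this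
  · rw [abs_of_nonneg (by positivity)]
    have : a + h ≤ N ^ 2 := by omega
    exact_mod_cast this
  · push_cast
    linarith
  · intro f hf
    simp only [FM, Finset.mem_insert, Finset.mem_singleton] at hf
    have hANR : (A : ℝ) + 2 ≤ N := by exact_mod_cast hNA
    rcases hf with rfl | rfl
    · rw [if_pos rfl]
      refine ⟨h1, ?_⟩
      have : (A : ℝ) * a ≤ N * N := by
        apply mul_le_mul (by linarith) (by linarith) (by linarith) (by linarith)
      nlinarith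
    · rw [if_neg hne]
      refine ⟨by linarith, ?_⟩
      have : (A : ℝ) * (N / 2) ≤ N * N := by
        apply mul_le_mul (by linarith) (by linarith) (by linarith) (by linarith)
      nlinarith
  · intro n hn' f hf
    simp only [Finset.mem_Ioc] at hn'
    push_cast at hn'
    simp only [FM, Finset.mem_insert, Finset.mem_singleton] at hf
    have k1 : (a : ℝ) < n := by exact_mod_cast hn'.1
    have k2 : (n : ℝ) ≤ a + h := by exact_mod_cast hn'.2
    rcases hf with rfl | rfl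
    · rw [if_pos rfl]
      simp only [val, one_mul, add_zero]
      exact ⟨k1.le, by linarith⟩
    · rw [if_neg hne]
      simp only [val]
      push_cast
      constructor
      · linarith
      · nlinarith

/-- the primes of the interval `(√N, 4√N)` of the problems -/
noncomputable def inSqrt (Q : Set ℕ) (N : ℕ) : ℕ :=
  {p : ℕ | √(N : ℝ) < p ∧ (p : ℝ) < 4 * √(N : ℝ) ∧ p ∈ Q ∧ N - p ∈ Q}.ncard

theorem inSqrt_ge (Q : Set ℕ) (N : ℕ) : prs Q N (Nat.sqrt N) (Nat.sqrt (16 * N - 1) - Nat.sqrt N) ≤ inSqrt Q N := by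
  rcases Nat.eq_zero_or_pos N with rfl | hN
  · have : prs Q 0 (Nat.sqrt 0) (Nat.sqrt (16 * 0 - 1) - Nat.sqrt 0) = 0 := by
      unfold prs
      have : {k : ℕ | Nat.sqrt 0 < k ∧ k ≤ Nat.sqrt 0 + (Nat.sqrt (16 * 0 - 1) - Nat.sqrt 0) ∧ k ∈ Q ∧ 0 - k ∈ Q} = ∅ := by
        ext k
        simp only [Set.mem_ofPred_eq, Set.mem_empty_iff_false, iff_false]
        rintro ⟨h1, h2, -⟩
        simp at h1 h2
        omega
      rw [this, Set.ncard_empty]
    omega
  · unfold prs inSqrt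
    apply Set.ncard_le_ncard
    · rintro k ⟨h1, h2, h3, h4⟩
      have h5 : N < k ^ 2 := by
        have := Nat.sqrt_lt'.1 h1
        exact this
      have h6 : Nat.sqrt N ≤ Nat.sqrt (16 * N - 1) := Nat.sqrt_le_sqrt (by omega)
      have h7 : k ≤ Nat.sqrt (16 * N - 1) := by omega
      have h8 : k ^ 2 ≤ 16 * N - 1 := Nat.le_sqrt'.1 h7
      have h9 : k ^ 2 < 16 * N := by omega
      have h5R : (N : ℝ) < (k : ℝ) ^ 2 := by exact_mod_cast h5
      have h9R : (k : ℝ) ^ 2 < 16 * N := by exact_mod_cast h9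
      refine ⟨?_, ?_, h3, h4⟩
      · rw [Real.sqrt_lt' (by
          have : 0 < k := by
            rcases Nat.eq_zero_or_pos k with rfl | h
            · simp at h5
            · exact h
          exact_mod_cast this)]
        exact h5R
      · have h10 : √(N : ℝ) ^ 2 = N := Real.sq_sqrt (by positivity)
        have h11 : (k : ℝ) ^ 2 < (4 * √(N : ℝ)) ^ 2 := by
          rw [mul_pow, h10]
          linarith
        exact lt_of_pow_lt_pow_left₀ 2 (by positivity) h11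
    · apply (Set.finite_Iio (16 * N + 1)).subset
      rintro k ⟨h1, h2, -⟩
      simp only [Set.mem_Iio]
      have h3 : √(N : ℝ) ≤ N := by
        rw [Real.sqrt_le_left (by positivity)]
        have : (1 : ℝ) ≤ N := by exact_mod_cast hN
        nlinarith
      have h4 : (k : ℝ) < 4 * N := by linarith
      have h5 : k < 4 * N := by exact_mod_cast h4
      omega

/-- **The interval `(√N, 4√N)`.** -/
theorem sqrt_low {Q : Set ℕ} {T : ℕ → ℕ} (hT2 : ∀ᶠ n in atTop, 2 ≤ T n) {C : ℝ} (hC0 : 0 < C)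
    (hC : Tendsto K2 atTop (𝓝 C)) (hQ : LawS Q T) (δ : ℝ) (hδ : 0 < δ) :
    ∀ᶠ N : ℕ in atTop, Even N → (12 * C - δ) * √(N : ℝ) / (Real.log N) ^ 2 ≤ (inSqrt Q N : ℝ) := by
  obtain ⟨δ', hδ'⟩ : ∃ δ', δ' = min C (δ / 12) := ⟨_, rfl⟩
  have hδ0 : 0 < δ' := by rw [hδ']; exact lt_min hC0 (by positivity)
  have hδ1 : δ' ≤ C := by rw [hδ']; exact min_le_left _ _
  have hδ2 : 12 * δ' ≤ δ := by
    have : δ' ≤ δ / 12 := by rw [hδ']; exact min_le_right _ _
    linarith
  have e1 : ∀ᶠ N : ℕ in atTop, (16 * C / δ + 100) ≤ (N : ℝ) ^ (1 / 4 : ℝ) :=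
    ((tendsto_rpow_atTop (by norm_num)).comp tendsto_natCast_atTop_atTop).eventually_ge_atTop _
  filter_upwards [small hT2 hC0 hC hQ 5 δ' (1 / 4) (by norm_num) hδ0 (by norm_num), e1,
    eventually_ge_atTop 10000] with N hN hNc hN4 hNe
  have hNR : (10000 : ℝ) ≤ N := by exact_mod_cast hN4
  set s := √(N : ℝ) with hs
  have hs0 : 0 ≤ s := Real.sqrt_nonneg _
  have hss : s * s = N := Real.mul_self_sqrt (by positivity)
  have hs100 : 100 ≤ s := by
    rw [hs]
    apply Real.le_sqrt_of_sq_le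
    linarith
  have hq : (N : ℝ) ^ (1 / 4 : ℝ) * (N : ℝ) ^ (1 / 4 : ℝ) = s := by
    rw [← Real.rpow_add (by linarith), hs, Real.sqrt_eq_rpow]
    norm_num
  have hq0 : 0 < (N : ℝ) ^ (1 / 4 : ℝ) := by positivity
  have hqs : (N : ℝ) ^ (1 / 4 : ℝ) * 100 ≤ s := by
    have : 0 ≤ 16 * C / δ := by positivity
    nlinarith
  have hcs : 16 * C ≤ δ * s := by
    have h1 : 16 * C / δ ≤ s := by nlinarith [show 0 ≤ 16 * C / δ by positivity]
    rw [div_le_iff₀ hδ] at h1
    linarith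
  set a := Nat.sqrt N with ha
  set b := Nat.sqrt (16 * N - 1) with hb
  have ha1 : (a : ℝ) ≤ s := Real.nat_sqrt_le_real_sqrt
  have ha2 : s < a + 1 := by
    rw [hs]
    exact Real.real_sqrt_lt_nat_sqrt_succ
  have hb1 : (b : ℝ) ≤ 4 * s := by
    have h1 : b ^ 2 ≤ 16 * N - 1 := by
      rw [hb]
      exact Nat.sqrt_le' _
    have h2 : b ^ 2 ≤ 16 * N := by omega
    have h3 : (b : ℝ) ^ 2 ≤ 16 * N := by exact_mod_cast h2
    have h4 : (b : ℝ) ^ 2 ≤ (4 * s) ^ 2 := by nlinarith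
    exact (pow_le_pow_iff_left₀ (by positivity) (by positivity) two_ne_zero).1 h4
  have hb2 : 4 * s < b + 2 := by
    have h1 : 16 * N - 1 < (b + 1) ^ 2 := by
      rw [hb]
      exact Nat.lt_succ_sqrt' _
    have h2 : 16 * N ≤ (b + 1) ^ 2 := by omega
    have h3 : (16 : ℝ) * N ≤ ((b : ℝ) + 1) ^ 2 := by exact_mod_cast h2
    nlinarith
  have hab : a ≤ b := Nat.sqrt_le_sqrt (by omega)
  have hh : ((b - a : ℕ) : ℝ) = (b : ℝ) - a := by rw [Nat.cast_sub hab]
  have ha3 : (N : ℝ) ^ (1 / 4 : ℝ) ≤ a := by linarith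
  have hb3 : (N : ℝ) ^ (1 / 4 : ℝ) ≤ ((b - a : ℕ) : ℝ) := by
    rw [hh]
    linarith
  have key := hN a (b - a) hNe ha3 ?_ ?_ hb3
  · have h1 : (prs Q N a (b - a) : ℝ) ≤ inSqrt Q N := by exact_mod_cast inSqrt_ge Q N
    have hL : 0 < Real.log N := Real.log_pos (by linarith)
    have hla : Real.log a ≤ Real.log N / 2 := by
      rw [← Real.log_sqrt (by positivity)]
      exact Real.log_le_log (by linarith) ha1
    rw [div_le_iff₀ (by positivity)]
    have h2 : (2 * C - δ') * ((b : ℝ) - a) ≤ (inSqrt Q N : ℝ) * (Real.log N / 2 * Real.log N) := by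
      rw [hh] at key
      refine key.trans ?_
      have hla0 : 0 ≤ Real.log a := Real.log_nonneg (by linarith)
      exact mul_le_mul h1 (mul_le_mul_of_nonneg_right hla hL.le) (by positivity) (by positivity)
    have h3 : 3 * s - 2 ≤ (b : ℝ) - a := by linarith
    have h4 : (2 * C - δ') * (3 * s - 2) ≤ (2 * C - δ') * ((b : ℝ) - a) :=
      mul_le_mul_of_nonneg_left h3 (by linarith)
    have h5 : 12 * δ' * s ≤ δ * s := mul_le_mul_of_nonneg_right hδ2 hs0
    have h6 : (12 * C - δ) * s ≤ 2 * ((2 * C - δ') * (3 * s - 2)) := by linarith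
    have h7 : (inSqrt Q N : ℝ) * Real.log N ^ 2 = 2 * ((inSqrt Q N : ℝ) * (Real.log N / 2 * Real.log N)) := by ring
    rw [h7]
    linarith
  · have h1 : (b : ℝ) ≤ 5 * a := by linarith
    have h2 : b ≤ 5 * a := by exact_mod_cast h1
    omega
  · have h1 : 2 * (b : ℝ) ≤ N := by nlinarith
    have h2 : 2 * b ≤ N := by exact_mod_cast h1
    omega

end Pool.Agent.U485.SM
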